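import Pool.Agent.H30.PR.Opt

/-!
The group of order two in characteristic two.
-/

set_option autoImplicit false

namespace Pool.Agent.H30.PR

open MvPolynomial Finset Pool.Agent.Q109.Polar

universe u v w

section ctwo

variable {k : Type u} [Field k] [Algebra (ZMod 2) k]
variable {T : Type u} [CommRing T] [Algebra k T] {n : ℕ}

/-- the substitution `x_i = ε_i`, `y_i = c ε_i` -/
noncomputable def chi (ε : Fin n → T) (c : k) : MvPolynomial (Fin n × Fin 2) k →ₐ[k] T :=
  aeval fun ia => if ia.2 = 0 then ε ia.1 else algebraMap k T c * ε ia.1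

omit [Algebra (ZMod 2) k] in
theorem chi_polar_zero (ε : Fin n → T) (c : k) :
    map (chi (k := k) ε c : MvPolynomial (Fin n × Fin 2) k →+* T) (polar n (X 0)) =
      ∑ i, X i * C (ε i) := by
  unfold polar
  rw [aeval_X, map_sum]
  refine Finset.sum_congr rfl fun i _ => ?_
  rw [map_mul, map_X, map_C]
  simp [chi]

omit [Algebra (ZMod 2) k] in
theorem chi_polar_one (ε : Fin n → T) (c : k) :
    map (chi (k := k) ε c : MvPolynomial (Fin n × Fin 2) k →+* T) (polar n (X 1)) =
      C (algebraMap k T c) * ∑ i, X i * C (ε i) := by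
  unfold polar
  rw [aeval_X, map_sum, Finset.mul_sum]
  refine Finset.sum_congr rfl fun i _ => ?_
  rw [map_mul, map_X, map_C]
  simp only [chi, aeval_X, RingHom.coe_coe, one_ne_zero, if_false, C_mul]
  ring

omit [Algebra (ZMod 2) k] in
theorem chi_polar (ε : Fin n → T) (c : k) (δ : Fin 2 →₀ ℕ) (a : k) :
    map (chi (k := k) ε c : MvPolynomial (Fin n × Fin 2) k →+* T) (polar n (monomial δ a)) =
      C (algebraMap k T a) * ((∑ i, X i * C (ε i)) ^ δ 0 *
        (C (algebraMap k T c) * ∑ i, X i * C (ε i)) ^ δ 1) := by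
  have h1 : (monomial δ a : MvPolynomial (Fin 2) k) = C a * (X 0 ^ δ 0 * X 1 ^ δ 1) := by
    rw [monomial_eq, Finsupp.prod_fintype _ _ fun _ => pow_zero _, Fin.prod_univ_two]
  rw [h1]
  simp only [map_mul, map_pow, chi_polar_zero, chi_polar_one]
  congr 1
  unfold polar
  rw [algHom_C, MvPolynomial.algebraMap_apply, map_C, MvPolynomial.algebraMap_eq]
  congr 1
  exact (chi (k := k) ε c).commutes a

/-- an invariant has no linear term in `y` -/
theorem coeff_y (f : MvPolynomial (Fin 2) k)
    (hf : ∀ c, actV (rhoUni (ZMod 2) k) c f = f) : coeff (Finsupp.single 1 1) f = 0 := by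
  have h1 := eval_two f hf (1 : ZMod 2)
  rw [map_one, Polynomial.C_1, one_mul] at h1
  have h2 : ∀ g : MvPolynomial (Fin 2) k,
      ((two g).eval (Polynomial.X : Polynomial k) - (two g).eval 0).coeff 1 =
        coeff (Finsupp.single 1 1) g := by
    intro g
    induction g using MvPolynomial.induction_on' with
    | monomial δ a =>
      have h3 : (monomial δ a : MvPolynomial (Fin 2) k) = C a * (X 0 ^ δ 0 * X 1 ^ δ 1) := by
        rw [monomial_eq, Finsupp.prod_fintype _ _ fun _ => pow_zero _, Fin.prod_univ_two]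
      have h4 : two (monomial δ a : MvPolynomial (Fin 2) k) =
          Polynomial.C (Polynomial.C a) * (Polynomial.C Polynomial.X ^ δ 0 *
            Polynomial.X ^ δ 1) := by
        rw [h3]
        unfold two
        rw [map_mul, map_mul, map_pow, map_pow, aeval_X, aeval_X, algHom_C]
        simp [Polynomial.algebraMap_apply]
      rw [h4, coeff_monomial]
      simp only [Polynomial.eval_mul, Polynomial.eval_pow, Polynomial.eval_C, Polynomial.eval_X]
      rcases Nat.eq_zero_or_pos (δ 1) with h5 | h5
      · rw [h5, pow_zero, pow_zero, sub_self, Polynomial.coeff_zero, if_neg]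
        rintro rfl
        rw [Finsupp.single_eq_same] at h5
        exact one_ne_zero h5
      · rw [zero_pow h5.ne', mul_zero, mul_zero, sub_zero, ← pow_add, Polynomial.coeff_C_mul,
          Polynomial.coeff_X_pow]
        by_cases h6 : 1 = δ 0 + δ 1
        · rw [if_pos h6, mul_one, if_pos]
          refine Finsupp.ext fun i => ?_
          fin_cases i
          · simp only [Fin.zero_eta, Fin.isValue, ne_eq, zero_ne_one, not_false_eq_true,
              Finsupp.single_eq_of_ne]
            omega
          · simp only [Fin.mk_one, Fin.isValue, Finsupp.single_eq_same]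
            omega
        · rw [if_neg h6, mul_zero, if_neg]
          rintro rfl
          apply h6
          rw [Finsupp.single_eq_same, Finsupp.single_eq_of_ne (by decide)]
    | add g h hg hh =>
      rw [map_add, Polynomial.eval_add, Polynomial.eval_add, coeff_add, ← hg, ← hh,
        ← Polynomial.coeff_add]
      congr 1
      ring
  rw [← h2 f, h1, sub_self, Polynomial.coeff_zero]

theorem P_le_eq_two [CharP T 2] (ε : Fin n → T) (hε : ∀ i, ε i ^ 2 = 0) (c : k) :
    P (rhoUni (ZMod 2) k) n ≤ AlgHom.equalizer (chi (k := k) ε 0) (chi ε c) := by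
  refine Algebra.adjoin_le ?_
  rintro h ⟨f, hf, β, rfl⟩
  rw [SetLike.mem_coe, AlgHom.mem_equalizer]
  have hs : (∑ i, X i * C (ε i) : MvPolynomial (Fin n) T) ^ 2 = 0 := by
    have hch : CharP (MvPolynomial (Fin n) T) 2 :=
      charP_of_injective_ringHom (MvPolynomial.C_injective (Fin n) T) 2
    rw [sum_pow_char 2]
    refine Finset.sum_eq_zero fun i _ => ?_
    rw [mul_pow, ← map_pow, hε, map_zero, mul_zero]
  have key : map (chi (k := k) ε 0 : MvPolynomial (Fin n × Fin 2) k →+* T) (polar n f) =
      map (chi (k := k) ε c : MvPolynomial (Fin n × Fin 2) k →+* T) (polar n f) := by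
    rw [f.as_sum, map_sum, map_sum, map_sum]
    refine Finset.sum_congr rfl fun δ hδ => ?_
    rw [chi_polar, chi_polar]
    congr 1
    rcases Nat.eq_zero_or_pos (δ 1) with h5 | h5
    · rw [h5, pow_zero, pow_zero]
    · by_cases h6 : 2 ≤ δ 0 + δ 1
      · obtain ⟨e, he⟩ := Nat.exists_eq_add_of_le h6
        have h7 : ∀ z : T, (∑ i, X i * C (ε i) : MvPolynomial (Fin n) T) ^ δ 0 *
            (C z * ∑ i, X i * C (ε i)) ^ δ 1 = 0 := fun z => by
          rw [mul_pow, mul_left_comm, ← pow_add, he, pow_add, hs, zero_mul, mul_zero]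
        rw [h7, h7]
      · exfalso
        have h8 : δ = Finsupp.single 1 1 := by
          refine Finsupp.ext fun i => ?_
          fin_cases i
          · simp only [Fin.zero_eta, Fin.isValue, ne_eq, zero_ne_one, not_false_eq_true,
              Finsupp.single_eq_of_ne]
            omega
          · simp only [Fin.mk_one, Fin.isValue, Finsupp.single_eq_same]
            omega
        rw [mem_support_iff, h8] at hδ
        exact hδ (coeff_y f hf)
  have h5 := congrArg (coeff β) key
  rw [coeff_map, coeff_map] at h5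
  exact h5

end ctwo

/-- **polarizations do not suffice for the group of order two** -/
theorem lower_ctwo (k : Type u) [Field k] [Algebra (ZMod 2) k] (c : k) (hc : c ^ 2 ≠ c) :
    ¬ Works 2 (rhoUni (ZMod 2) k) 3 0 := by
  classical
  have hch : CharP k 2 := charP_of_injective_algebraMap (algebraMap (ZMod 2) k).injective 2
  intro h
  let I : Ideal (MvPolynomial (Fin 3) k) := Ideal.span {X 0 ^ 2, X 1 ^ 2, X 2 ^ 2}
  have hnot : (X 0 * X 1 * X 2 : MvPolynomial (Fin 3) k) ∉ I := by
    intro hI
    rw [Ideal.mem_span_insert] at hI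
    obtain ⟨a, z, hz, h1⟩ := hI
    rw [Ideal.mem_span_pair] at hz
    obtain ⟨b, d, hbd⟩ := hz
    have h2 := congrArg (coeff (Finsupp.single 0 1 + Finsupp.single 1 1 + Finsupp.single 2 1)) h1
    have h3 : (X 0 * X 1 * X 2 : MvPolynomial (Fin 3) k) =
        monomial (Finsupp.single 0 1 + Finsupp.single 1 1 + Finsupp.single 2 1) 1 := by
      rw [X, X, X, monomial_mul, monomial_mul, one_mul, one_mul]
    rw [h3, ← hbd, coeff_add, coeff_add, coeff_monomial, if_pos rfl, X_pow_eq_monomial,
      X_pow_eq_monomial, X_pow_eq_monomial, coeff_mul_monomial', coeff_mul_monomial',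
      coeff_mul_monomial', if_neg, if_neg, if_neg, add_zero, add_zero] at h2
    · exact one_ne_zero h2
    · intro h4
      have := h4 2
      simp at this
    · intro h4
      have := h4 1
      simp at this
    · intro h4
      have := h4 0
      simp at this
  have hInt : Nontrivial (MvPolynomial (Fin 3) k ⧸ I) := by
    refine Ideal.Quotient.nontrivial_iff.2 fun h1 => hnot ?_
    rw [h1]
    exact Submodule.mem_top
  have hchT : CharP (MvPolynomial (Fin 3) k ⧸ I) 2 :=
    charP_of_injective_algebraMap (algebraMap k _).injective 2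
  let ε : Fin 3 → MvPolynomial (Fin 3) k ⧸ I := fun i => Ideal.Quotient.mk I (X i)
  have hε : ∀ i, ε i ^ 2 = 0 := by
    intro i
    change Ideal.Quotient.mk I (X i) ^ 2 = 0
    rw [← map_pow, Ideal.Quotient.eq_zero_iff_mem]
    refine Ideal.subset_span ?_
    fin_cases i <;> simp
  have hf := h (X (0, 1) * X (1, 1) * X (2, 1) +
    (X (0, 1) + X (0, 0)) * (X (1, 1) + X (1, 0)) * (X (2, 1) + X (2, 0))) (fun g => by
      simp only [map_add, map_mul, act_uni_zero, act_uni_one]
      have h2 : (2 : MvPolynomial (Fin 3 × Fin 2) k) = 0 := by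
        have : CharP (MvPolynomial (Fin 3 × Fin 2) k) 2 :=
          charP_of_injective_ringHom (MvPolynomial.C_injective _ _) 2
        exact CharTwo.two_eq_zero
      have h3 : ∀ z : ZMod 2, z = 0 ∨ z = 1 := by decide
      rcases h3 g.toAdd with h4 | h4
      · rw [h4]
        simp
      · rw [h4, map_one, C_1]
        linear_combination (X (0, 0) * (X (1, 1) + 2 * X (1, 0)) * (X (2, 1) + 2 * X (2, 0)) +
          X (0, 1) * X (1, 0) * (X (2, 1) + 2 * X (2, 0)) + X (0, 1) * X (1, 1) * X (2, 0)) * h2)
  have h4 := P_le_eq_two ε hε c hf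
  rw [AlgHom.mem_equalizer, pow_zero, pow_one] at h4
  have h5 : chi ε (0 : k) (X (0, 1) * X (1, 1) * X (2, 1) +
    (X (0, 1) + X (0, 0)) * (X (1, 1) + X (1, 0)) * (X (2, 1) + X (2, 0))) = ε 0 * ε 1 * ε 2 := by
    simp [chi]
  have h6 : chi ε c (X (0, 1) * X (1, 1) * X (2, 1) +
    (X (0, 1) + X (0, 0)) * (X (1, 1) + X (1, 0)) * (X (2, 1) + X (2, 0))) =
      algebraMap k _ (c ^ 3 + (c + 1) ^ 3) * (ε 0 * ε 1 * ε 2) := by
    simp only [chi, map_add, map_mul, aeval_X, map_pow, map_one, one_ne_zero, if_false, if_true]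
    ring
  rw [h5, h6] at h4
  have h7 : algebraMap k (MvPolynomial (Fin 3) k ⧸ I) (c ^ 2 - c) * (ε 0 * ε 1 * ε 2) = 0 := by
    have h2 : (2 : k) = 0 := CharTwo.two_eq_zero
    have h8 : c ^ 2 - c = (c ^ 3 + (c + 1) ^ 3) - 1 := by
      linear_combination (-c ^ 3 - c ^ 2 - 2 * c) * h2
    rw [h8, map_sub, map_one, sub_mul, one_mul, ← h4, sub_self]
  have h9 : c ^ 2 - c ≠ 0 := sub_ne_zero.2 hc
  have h10 : ε 0 * ε 1 * ε 2 = 0 := by
    have h11 := congrArg (fun z => algebraMap k (MvPolynomial (Fin 3) k ⧸ I) (c ^ 2 - c)⁻¹ * z) h7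
    simp only [mul_zero, ← mul_assoc, ← map_mul, inv_mul_cancel₀ h9, map_one, one_mul] at h11
    exact h11
  rw [← map_mul, ← map_mul, Ideal.Quotient.eq_zero_iff_mem] at h10
  exact hnot h10

/-- the lower bound `a` for the orders divisible by `p ^ a`, without exceptions -/
theorem unif_lower_all (p N a b : ℕ) [hp : Fact p.Prime] (hN : N = p ^ a * b) (hb : ¬ p ∣ b)
    (d : ℕ) (h : Unif p N d) : a ≤ d := by
  classical
  by_cases h2 : p ^ a = 2
  · have hp2 : p = 2 := by
      have h3 : p ∣ 2 := by
        rw [← h2]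
        refine dvd_pow_self p ?_
        rintro rfl
        rw [pow_zero] at h2
        omega
      exact (Nat.prime_dvd_prime_iff_eq hp.out Nat.prime_two).1 h3
    subst hp2
    have ha : a = 1 := Nat.pow_right_injective le_rfl (by simpa using h2)
    subst ha
    by_contra hd
    have hd0 : d = 0 := by omega
    subst hd0
    have h1 := h (AlgebraicClosure (ZMod 2)) (Multiplicative (ZMod 2) × Multiplicative (ZMod b))
      (by rw [Nat.card_prod, hN, Nat.card_congr Multiplicative.toAdd, Nat.card_zmod,
        Nat.card_congr Multiplicative.toAdd, Nat.card_zmod, pow_one])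
      2 ((rhoUni (ZMod 2) _).comp (MonoidHom.fst _ _)) 3
    rw [works_comp 2 _ _ (fun x => ⟨(x, 1), rfl⟩)] at h1
    obtain ⟨c, hc⟩ := Infinite.exists_notMem_finset ({0, 1} : Finset (AlgebraicClosure (ZMod 2)))
    refine lower_ctwo _ c (fun h3 => hc ?_) h1
    have h4 : c * (c - 1) = 0 := by
      rw [mul_sub, mul_one, ← sq, h3, sub_self]
    rcases mul_eq_zero.1 h4 with h5 | h5
    · simp [h5]
    · simp [sub_eq_zero.1 h5]
  · exact unif_lower_two p N a b hN hb h2 d h

end Pool.Agent.H30.PR
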