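import Pool.Agent.H30.PR.Fin

/-!
The module `χ ⊕ χ⁻¹` of a character `χ` of any group.
-/

set_option autoImplicit false

namespace Pool.Agent.H30.PR

open MvPolynomial Finset Pool.Agent.Q109.Polar

universe u v w

variable {k : Type u} [Field k] {G : Type v} [Group G]

/-- the module `χ ⊕ χ⁻¹` of a character `χ`: the matrix of `g` is `diag (χ g, (χ g)⁻¹)` -/
noncomputable def rhoChar (χ : G →* kˣ) : G →* Matrix (Fin 2) (Fin 2) k where
  toFun g := Matrix.diagonal ![(χ g : k), ((χ g)⁻¹ : kˣ)]
  map_one' := by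
    rw [← Matrix.diagonal_one]
    congr 1
    funext i
    fin_cases i <;> simp
  map_mul' g h := by
    rw [Matrix.diagonal_mul_diagonal]
    congr 1
    funext i
    fin_cases i
    · simp
    · simp [mul_comm]

/-- **the exact exponent for `χ ⊕ χ⁻¹`** -/
theorem exact_char (p : ℕ) [hp : Fact p.Prime] [CharP k p] (χ : G →* kˣ)
    (hfin : (Set.range χ).Finite) (n : ℕ) (hn : 2 ≤ n) (d : ℕ) :
    Works p (rhoChar χ) n d ↔ Nat.clog p (Nat.card (Set.range χ)) ≤ d := by
  have hS : Finite χ.range := hfin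
  have hcard : Nat.card (Set.range χ) = Nat.card χ.range := rfl
  rw [hcard]
  have hpos : 0 < Nat.card χ.range := Nat.card_pos
  obtain ⟨ζ, hζ⟩ := IsCyclic.exists_generator (α := χ.range)
  have hord : orderOf ζ = Nat.card χ.range := orderOf_eq_card_of_forall_mem_zpowers hζ
  set r := Nat.card χ.range with hr
  have hne : NeZero r := ⟨hpos.ne'⟩
  have hord2 : orderOf (((ζ : χ.range) : kˣ) : k) = r := by
    rw [orderOf_units, Subgroup.orderOf_coe, hord]
  have hζ1 : IsPrimitiveRoot (((ζ : χ.range) : kˣ) : k) r := by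
    rw [← hord2]
    exact IsPrimitiveRoot.orderOf _
  have hmem : ∀ g, χ g ∈ rootsOfUnity r k := fun g => by
    rw [mem_rootsOfUnity, hr]
    have h1 : (⟨χ g, g, rfl⟩ : χ.range) ^ Nat.card χ.range = 1 := pow_card_eq_one'
    exact congrArg Subtype.val h1
  let π : G →* rootsOfUnity r k := χ.codRestrict (rootsOfUnity r k) hmem
  have hπ : Function.Surjective π := by
    have h1 : χ.range ≤ rootsOfUnity r k := by
      rintro _ ⟨g, rfl⟩
      exact hmem g
    have h2 : χ.range = rootsOfUnity r k := by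
      have : Finite (rootsOfUnity r k) := by
        have := hζ1.card_rootsOfUnity
        exact Nat.finite_of_card_ne_zero (by rw [this]; exact hpos.ne')
      exact Subgroup.eq_of_le_of_card_ge h1 (by rw [hζ1.card_rootsOfUnity])
    rintro ⟨x, hx⟩
    rw [← h2] at hx
    obtain ⟨g, rfl⟩ := hx
    exact ⟨g, rfl⟩
  have h3 : rhoChar χ = (rhoTwo k r).comp π := by
    ext g : 1
    rfl
  rw [h3, works_comp p (rhoTwo k r) π hπ n d]
  exact exact_two p k r hpos _ hζ1 n hn d

end Pool.Agent.H30.PR
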