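import Pool.Agent.H30.PR.Perm3

/-!
The lower bound for the cyclic permutation modules.
-/

set_option autoImplicit false

namespace Pool.Agent.H30.PR

open MvPolynomial Finset Pool.Agent.Q109.Polar

universe u v w

/-- the rotations of `Fin m`: the element `h` acts by `a ↦ h + a` -/
def rot (m : ℕ) [NeZero m] : Multiplicative (Fin m) →* Equiv.Perm (Fin m) where
  toFun h := Equiv.addLeft h.toAdd
  map_one' := by
    ext a
    simp
  map_mul' h h' := by
    ext a
    simp [add_assoc]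

section cyc

variable {k : Type u} [Field k] {m : ℕ}

/-- the explicit invariant for the weights `1, -1` -/
theorem not_mem_two {r : ℕ} (hr : 0 < r) (ζ : k) (hζ : IsPrimitiveRoot ζ r) (n q : ℕ)
    (i j : Fin n) (hij : i ≠ j) (hq0 : 0 < q) (hq : q < r) :
    ((X (i, 0) * X (j, 1) : MvPolynomial (Fin n × Fin 2) k)) ^ q ∉ P (rhoTwo k r) n := by
  classical
  intro h
  let I : Ideal (MvPolynomial (Fin 2) k) := Ideal.span {X 0 ^ r, X 1 ^ r}
  let A : MvPolynomial (Fin 2) k ⧸ I := Ideal.Quotient.mk I (X 0)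
  let B : MvPolynomial (Fin 2) k ⧸ I := Ideal.Quotient.mk I (X 1)
  have hA : A ^ r = 0 := by
    rw [← map_pow, Ideal.Quotient.eq_zero_iff_mem]
    exact Ideal.subset_span (Set.mem_insert _ _)
  have hB : B ^ r = 0 := by
    rw [← map_pow, Ideal.Quotient.eq_zero_iff_mem]
    exact Ideal.subset_span (Set.mem_insert_of_mem _ rfl)
  have h1 := P_le_eq hr ζ hζ A B hA hB i j h
  rw [AlgHom.mem_equalizer, map_pow, map_pow, map_mul, map_mul] at h1
  simp only [phi, aeval_X, if_true, one_ne_zero, if_false, if_neg hij, zero_mul] at h1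
  rw [zero_pow hq0.ne', ← map_mul, ← map_pow, Ideal.Quotient.eq_zero_iff_mem,
    Ideal.mem_span_pair] at h1
  obtain ⟨u, v, huv⟩ := h1
  have h2 := congrArg (coeff (Finsupp.single 0 q + Finsupp.single 1 q)) huv
  have h3 : ((X 0 * X 1) ^ q : MvPolynomial (Fin 2) k) =
      monomial (Finsupp.single 0 q + Finsupp.single 1 q) 1 := by
    rw [mul_pow, X_pow_eq_monomial, X_pow_eq_monomial, monomial_mul, one_mul]
  rw [h3, coeff_add, coeff_monomial, if_pos rfl, X_pow_eq_monomial, X_pow_eq_monomial,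
    coeff_mul_monomial', coeff_mul_monomial', if_neg, if_neg, add_zero] at h2
  · exact zero_ne_one h2
  · intro h4
    have := h4 1
    simp at this
    omega
  · intro h4
    have := h4 0
    simp at this
    omega

variable [NeZero m] (ζ : k)

/-- the power of a root of unity with exponent in `Fin m` -/
def zz (ζ : k) (a : Fin m) : k := ζ ^ (a : ℕ)

theorem zz_add (hζ : ζ ^ m = 1) (a b : Fin m) : zz ζ (a + b) = zz ζ a * zz ζ b := by
  unfold zz
  rw [Fin.val_add, ← pow_eq_pow_mod _ hζ, pow_add]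

/-- restriction to the sum of two eigenlines -/
noncomputable def Res (n : ℕ) (ζ : k) :
    MvPolynomial (Fin n × Fin m) k →ₐ[k] MvPolynomial (Fin n × Fin 2) k :=
  aeval fun ia => C (zz ζ ia.2) * X (ia.1, 0) + C (zz ζ⁻¹ ia.2) * X (ia.1, 1)

/-- restriction on `V` -/
noncomputable def ResV (ζ : k) : MvPolynomial (Fin m) k →ₐ[k] MvPolynomial (Fin 2) k :=
  aeval fun a => C (zz ζ a) * X 0 + C (zz ζ⁻¹ a) * X 1

theorem Res_polar (n : ℕ) (f : MvPolynomial (Fin m) k) :
    map ((Res (m := m) n ζ : MvPolynomial (Fin n × Fin m) k →ₐ[k] MvPolynomial (Fin n × Fin 2) k) :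
      MvPolynomial (Fin n × Fin m) k →+* MvPolynomial (Fin n × Fin 2) k)
      (polar n f) = polar n (ResV ζ f) := by
  have h1 : (map ((Res (m := m) n ζ : MvPolynomial (Fin n × Fin m) k →ₐ[k]
      MvPolynomial (Fin n × Fin 2) k) : MvPolynomial (Fin n × Fin m) k →+*
      MvPolynomial (Fin n × Fin 2) k)).comp (polar n : MvPolynomial (Fin m) k →ₐ[k] _).toRingHom =
      ((polar n).comp (ResV ζ)).toRingHom := by
    apply ringHom_ext
    · intro r
      simp only [polar, ResV, RingHom.comp_apply, AlgHom.toRingHom_eq_coe, RingHom.coe_coe,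
        algHom_C, AlgHom.comp_apply, MvPolynomial.algebraMap_apply, map_C]
    · intro a
      simp only [polar, ResV, Res, RingHom.comp_apply, AlgHom.toRingHom_eq_coe, RingHom.coe_coe,
        AlgHom.comp_apply, aeval_X, map_sum, map_mul, map_add, map_X, map_C, algHom_C,
        MvPolynomial.algebraMap_apply, Finset.mul_sum, Algebra.algebraMap_self_apply]
      rw [← Finset.sum_add_distrib]
      refine Finset.sum_congr rfl fun b _ => ?_
      ring
  exact DFunLike.congr_fun h1 f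

theorem actV_rot (h : Multiplicative (Fin m)) (a : Fin m) :
    actV (rhoPerm k (rot m)) h (X a) = X (-h.toAdd + a) := by
  rw [actV, aeval_X, Finset.sum_eq_single (-h.toAdd + a)]
  · simp [rhoPerm, rot]
  · intro b _ hb
    have h1 : ¬ h.toAdd + b = a := by
      rintro rfl
      exact hb (by simp)
    simp [rhoPerm, rot, h1]
  · simp

theorem act_rot (n : ℕ) (h : Multiplicative (Fin m)) (i : Fin n) (a : Fin m) :
    act (rhoPerm k (rot m)) n h (X (i, a)) = X (i, -h.toAdd + a) := by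
  rw [act, aeval_X, Finset.sum_eq_single (-h.toAdd + a)]
  · simp [rhoPerm, rot]
  · intro b _ hb
    have h1 : ¬ h.toAdd + b = a := by
      rintro rfl
      exact hb (by simp)
    simp [rhoPerm, rot, h1]
  · simp

theorem ResV_inv (hζ : IsPrimitiveRoot ζ m) (f : MvPolynomial (Fin m) k)
    (hf : ∀ h, actV (rhoPerm k (rot m)) h f = f) (g : rootsOfUnity m k) :
    actV (rhoTwo k m) g (ResV ζ f) = ResV ζ f := by
  have hm : 0 < m := Nat.pos_of_ne_zero (NeZero.ne m)
  have hgm : (((g : kˣ) : k)) ^ m = 1 := by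
    have h0 := (mem_rootsOfUnity m (g : kˣ)).1 g.2
    have h0' := congrArg Units.val h0
    simpa using h0'
  obtain ⟨i, hi, hig⟩ := hζ.eq_pow_of_pow_eq_one hgm
  let j : Fin m := ⟨i, hi⟩
  have hj : zz ζ j = ((g : kˣ) : k) := hig
  have hj' : zz ζ⁻¹ j = (((g : kˣ)⁻¹ : kˣ) : k) := by
    rw [Units.val_inv_eq_inv_val, ← hj]
    unfold zz
    rw [inv_pow]
  have h1 : ((actV (rhoTwo k m) g).comp (ResV (m := m) ζ)) =
      (ResV ζ).comp (actV (rhoPerm k (rot m)) (Multiplicative.ofAdd (-j))) := by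
    apply algHom_ext
    intro a
    rw [AlgHom.comp_apply, AlgHom.comp_apply, actV_rot, toAdd_ofAdd, neg_neg, ResV, aeval_X,
      aeval_X, zz_add ζ hζ.pow_eq_one, zz_add ζ⁻¹ (by rw [inv_pow, hζ.pow_eq_one, inv_one]), hj,
      hj', actV_two, map_add, map_mul, map_mul, aeval_X, aeval_X, algHom_C, algHom_C]
    simp only [MvPolynomial.algebraMap_eq, Matrix.cons_val_zero, Matrix.cons_val_one, C_mul]
    ring
  have h2 := DFunLike.congr_fun h1 f
  rw [AlgHom.comp_apply, AlgHom.comp_apply, hf] at h2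
  exact h2

theorem Res_P (hζ : IsPrimitiveRoot ζ m) (n : ℕ) (u : MvPolynomial (Fin n × Fin m) k)
    (hu : u ∈ P (rhoPerm k (rot m)) n) : Res n ζ u ∈ P (rhoTwo k m) n := by
  have h1 : P (rhoPerm k (rot m)) n ≤ (P (rhoTwo k m) n).comap (Res n ζ) := by
    refine Algebra.adjoin_le ?_
    rintro _ ⟨f, hf, β, rfl⟩
    rw [SetLike.mem_coe, Subalgebra.mem_comap]
    have h2 := congrArg (coeff β) (Res_polar ζ n f)
    rw [coeff_map] at h2
    have h3 : Res n ζ (coeff β (polar n f)) = coeff β (polar n (ResV ζ f)) := h2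
    rw [h3]
    exact Algebra.subset_adjoin ⟨_, ResV_inv ζ hζ f hf, β, rfl⟩
  exact h1 hu

/-- the eigenforms -/
noncomputable def eig (n : ℕ) (ζ : k) (i : Fin n) : MvPolynomial (Fin n × Fin m) k :=
  ∑ a, C (zz ζ a) * X (i, a)

theorem act_eig (hζ : ζ ^ m = 1) (n : ℕ) (i : Fin n) (h : Multiplicative (Fin m)) :
    act (rhoPerm k (rot m)) n h (eig n ζ i) = C (zz ζ h.toAdd) * eig n ζ i := by
  unfold eig
  rw [map_sum, Finset.mul_sum, ← Equiv.sum_comp (Equiv.addLeft h.toAdd)]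
  refine Finset.sum_congr rfl fun a _ => ?_
  rw [Equiv.coe_addLeft, map_mul, act_rot, algHom_C, zz_add ζ hζ, neg_add_cancel_left,
    MvPolynomial.algebraMap_eq, C_mul]
  ring

theorem sum_sq (hζ : IsPrimitiveRoot ζ m) (hm : 3 ≤ m) : ∑ a : Fin m, zz ζ a * zz ζ a = 0 := by
  have h1 : ∑ a : Fin m, zz ζ a * zz ζ a = (ζ * ζ) * ∑ a : Fin m, zz ζ a * zz ζ a := by
    conv_lhs => rw [← Equiv.sum_comp (Equiv.addLeft (1 : Fin m))]
    rw [Finset.mul_sum]
    refine Finset.sum_congr rfl fun a _ => ?_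
    have h2 : zz ζ (1 : Fin m) = ζ := by
      unfold zz
      rw [Fin.val_one', Nat.mod_eq_of_lt (by omega), pow_one]
    rw [Equiv.coe_addLeft, zz_add ζ hζ.pow_eq_one, h2]
    ring
  have h3 : (ζ * ζ - 1) * ∑ a : Fin m, zz ζ a * zz ζ a = 0 := by
    rw [sub_mul, one_mul, ← h1, sub_self]
  rcases mul_eq_zero.1 h3 with h4 | h4
  · exfalso
    have h5 : ζ ^ 2 = 1 := by rw [sq]; exact sub_eq_zero.1 h4
    have h6 := Nat.le_of_dvd two_pos (hζ.dvd_of_pow_eq_one 2 h5)
    omega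
  · exact h4

theorem sum_inv (hζ : ζ ≠ 0) : ∑ a : Fin m, zz ζ⁻¹ a * zz ζ a = (m : k) := by
  have h1 : ∀ a : Fin m, zz ζ⁻¹ a * zz ζ a = 1 := fun a => by
    unfold zz
    rw [← mul_pow, inv_mul_cancel₀ hζ, one_pow]
  rw [Finset.sum_congr rfl fun a _ => h1 a]
  simp

theorem Res_eig (n : ℕ) (η : k) (i : Fin n) :
    Res n ζ (eig (m := m) n η i) = C (∑ a : Fin m, zz η a * zz ζ a) * X (i, 0) +
      C (∑ a : Fin m, zz η a * zz ζ⁻¹ a) * X (i, 1) := by
  unfold eig Res
  rw [map_sum, map_sum, map_sum, Finset.sum_mul, Finset.sum_mul, ← Finset.sum_add_distrib]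
  refine Finset.sum_congr rfl fun a _ => ?_
  rw [map_mul, aeval_X, algHom_C, MvPolynomial.algebraMap_eq, C_mul, C_mul]
  ring

/-- **the lower bound for the cyclic permutation modules** -/
theorem lower_rot (p : ℕ) [hp : Fact p.Prime] [CharP k p] (hζ : IsPrimitiveRoot ζ m) (hm : 3 ≤ m)
    (n : ℕ) (hn : 2 ≤ n) (d : ℕ) (h : Works p (rhoPerm k (rot m)) n d) : Nat.clog p m ≤ d := by
  by_contra h1
  push Not at h1
  have h2 : p ^ d < m := (Nat.lt_clog_iff_pow_lt hp.out.one_lt).1 h1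
  have hm0 : 0 < m := by omega
  have hζ0 : ζ ≠ 0 := hζ.ne_zero hm0.ne'
  have hζi : IsPrimitiveRoot ζ⁻¹ m := hζ.inv
  have hmk : (m : k) ≠ 0 := (hζ.neZero').out
  let i : Fin n := ⟨0, by omega⟩
  let j : Fin n := ⟨1, by omega⟩
  have hij : i ≠ j := fun h => by
    have := congrArg Fin.val h
    simp [i, j] at this
  have h3 := h (eig n ζ⁻¹ i * eig n ζ j) (fun g => by
    rw [map_mul, act_eig ζ⁻¹ hζi.pow_eq_one, act_eig ζ hζ.pow_eq_one]
    have h4 : (C (zz ζ⁻¹ g.toAdd) : MvPolynomial (Fin n × Fin m) k) * C (zz ζ g.toAdd) = 1 := by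
      rw [← C_mul]
      unfold zz
      rw [← mul_pow, inv_mul_cancel₀ hζ0, one_pow, C_1]
    linear_combination (eig n ζ⁻¹ i * eig n ζ j) * h4)
  have h5 := Res_P ζ hζ n _ h3
  have h6 : Res n ζ (eig (m := m) n ζ⁻¹ i * eig n ζ j) =
      C ((m : k) * m) * (X (i, 0) * X (j, 1)) := by
    have h7 : ∑ a : Fin m, zz ζ a * zz ζ⁻¹ a = (m : k) := by
      rw [← sum_inv (m := m) ζ hζ0]
      exact Finset.sum_congr rfl fun a _ => mul_comm _ _
    rw [map_mul, Res_eig, Res_eig, sum_inv ζ hζ0, sum_sq ζ hζ hm, sum_sq ζ⁻¹ hζi hm, h7, C_0, C_mul]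
    ring
  rw [map_pow, h6, mul_pow, ← map_pow] at h5
  refine not_mem_two hm0 ζ hζ n (p ^ d) i j hij (pow_pos hp.out.pos d) h2 ?_
  have h8 := (P (rhoTwo k m) n).mul_mem ((P (rhoTwo k m) n).algebraMap_mem
    (((m : k) * m) ^ p ^ d)⁻¹) h5
  rw [MvPolynomial.algebraMap_eq, ← mul_assoc, ← C_mul, inv_mul_cancel₀
    (pow_ne_zero _ (mul_ne_zero hmk hmk)), C_1, one_mul] at h8
  exact h8

/-- **the exact exponent for the cyclic permutation modules** -/
theorem exact_rot (p : ℕ) [hp : Fact p.Prime] [CharP k p] (hζ : IsPrimitiveRoot ζ m) (hm : 3 ≤ m)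
    (n : ℕ) (hn : 2 ≤ n) (d : ℕ) :
    Works p (rhoPerm k (rot m)) n d ↔ Nat.clog p m ≤ d := by
  refine ⟨lower_rot ζ p hζ hm n hn d, fun h => ?_⟩
  have hcard : Nat.card (Multiplicative (Fin m)) = m := by
    rw [Nat.card_congr Multiplicative.toAdd, Nat.card_eq_fintype_card, Fintype.card_fin]
  have hmk : (m : k) ≠ 0 := (hζ.neZero').out
  have hpm : ¬ p ∣ m := fun h1 => hmk ((CharP.cast_eq_zero_iff k p m).2 h1)
  have h2 : Works p (rhoPerm k (rot m)) n (Nat.clog p m) := fun f hf => by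
    have h3 := uniform p k (Multiplicative (Fin m)) m (rhoPerm k (rot m)) n f hf
    rwa [hcard, padicValNat.eq_zero_of_not_dvd hpm, zero_add] at h3
  exact works_mono p _ n _ d h2 h

end cyc

end Pool.Agent.H30.PR
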