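import Mathlib

/-!
Digit sums and multinomial coefficients modulo `p`.
-/

set_option autoImplicit false

namespace Pool.Agent.H30.PR

open Finset

/-- the digit sum of `n` in base `p` -/
def ds (p n : ℕ) : ℕ := (p.digits n).sum

theorem ds_le (p n : ℕ) : ds p n ≤ n := Nat.digit_sum_le p n

theorem legendre (p : ℕ) [Fact p.Prime] (n : ℕ) :
    (p - 1) * padicValNat p n.factorial + ds p n = n := by
  rw [sub_one_mul_padicValNat_factorial]
  exact Nat.sub_add_cancel (ds_le p n)

theorem ds_add (p : ℕ) [Fact p.Prime] (a b : ℕ) : ds p (a + b) ≤ ds p a + ds p b := by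
  have h1 := legendre p a
  have h2 := legendre p b
  have h3 := legendre p (a + b)
  have h4 : padicValNat p a.factorial + padicValNat p b.factorial ≤
      padicValNat p (a + b).factorial := by
    rw [← padicValNat.mul a.factorial_ne_zero b.factorial_ne_zero]
    obtain ⟨c, hc⟩ := Nat.factorial_mul_factorial_dvd_factorial_add a b
    rw [hc]
    have hc0 : c ≠ 0 := by
      rintro rfl
      exact (a + b).factorial_ne_zero (by rw [hc, mul_zero])
    rw [padicValNat.mul (mul_ne_zero a.factorial_ne_zero b.factorial_ne_zero) hc0]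
    exact Nat.le_add_right _ _
  have h5 := Nat.mul_le_mul_left (p - 1) h4
  rw [mul_add] at h5
  omega

theorem ds_pow (p : ℕ) [hp : Fact p.Prime] (j : ℕ) : ds p (p ^ j) ≤ 1 := by
  have : ds p (p ^ j) = 1 := by
    unfold ds
    have h := Nat.digits_base_pow_mul (b := p) (k := j) (m := 1) hp.out.one_lt one_pos
    rw [mul_one] at h
    rw [h, Nat.digits_of_lt p 1 one_ne_zero hp.out.one_lt]
    simp
  exact this.le

theorem ds_step (p : ℕ) [hp : Fact p.Prime] (n : ℕ) : ds p n = n % p + ds p (n / p) := by
  unfold ds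
  rcases Nat.eq_zero_or_pos n with rfl | h
  · simp
  · rw [Nat.digits_def' hp.out.one_lt h, List.sum_cons]

theorem sum_digits_le (p : ℕ) [hp : Fact p.Prime] (d : ℕ) : ∀ n : ℕ,
    ∑ j ∈ range d, n / p ^ j % p ≤ ds p n := by
  induction d with
  | zero => intro n; simp
  | succ d ih =>
    intro n
    rw [Finset.sum_range_succ', ds_step p n]
    have h := ih (n / p)
    have h2 : ∀ j, n / p ^ (j + 1) % p = n / p / p ^ j % p := fun j => by
      rw [pow_succ', Nat.div_div_eq_div_mul]
    simp only [h2, pow_zero, Nat.div_one]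
    omega

/-- `p` does not divide the multinomial coefficient if the digit sums do not grow -/
theorem not_dvd_multinomial (p : ℕ) [hp : Fact p.Prime] {ι : Type*} (s : Finset ι) (β : ι → ℕ)
    (h : ∑ i ∈ s, ds p (β i) ≤ ds p (∑ i ∈ s, β i)) : ¬ p ∣ Nat.multinomial s β := by
  have h1 := Nat.multinomial_spec s β
  have h2 : Nat.multinomial s β ≠ 0 := by
    intro h0
    rw [h0, mul_zero] at h1
    exact Nat.factorial_ne_zero _ h1.symm
  have h3 : (∏ i ∈ s, (β i).factorial) ≠ 0 :=
    Finset.prod_ne_zero_iff.2 fun i _ => Nat.factorial_ne_zero _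
  have h4 : padicValNat p (∏ i ∈ s, (β i).factorial) = ∑ i ∈ s, padicValNat p (β i).factorial := by
    classical
    clear h h1 h2 h3
    induction s using Finset.induction_on with
    | empty => simp
    | insert a s ha ih =>
      rw [Finset.prod_insert ha, Finset.sum_insert ha, padicValNat.mul (Nat.factorial_ne_zero _)
        (Finset.prod_ne_zero_iff.2 fun i _ => Nat.factorial_ne_zero _), ih]
  have h5 : ∑ i ∈ s, padicValNat p (β i).factorial + padicValNat p (Nat.multinomial s β) =
      padicValNat p (∑ i ∈ s, β i).factorial := by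
    rw [← h1, padicValNat.mul h3 h2, h4]
  have h6 := legendre p (∑ i ∈ s, β i)
  have h7 : (p - 1) * ∑ i ∈ s, padicValNat p (β i).factorial + ∑ i ∈ s, ds p (β i) =
      ∑ i ∈ s, β i := by
    rw [Finset.mul_sum, ← Finset.sum_add_distrib]
    exact Finset.sum_congr rfl fun i _ => legendre p (β i)
  rw [← h5, mul_add] at h6
  have h8 : (p - 1) * padicValNat p (Nat.multinomial s β) = 0 := by omega
  have h9 : padicValNat p (Nat.multinomial s β) = 0 := by
    rcases mul_eq_zero.1 h8 with h | h
    · have := hp.out.two_le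
      omega
    · exact h
  intro hd
  have := (padicValNat_dvd_iff_le (p := p) (n := 1) h2).1 (by rwa [pow_one])
  omega

end Pool.Agent.H30.PR
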