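import Pool.Agent.H30.PR.Up

/-!
The lower bound on the line.
-/

set_option autoImplicit false

namespace Pool.Agent.H30.PR

open MvPolynomial Finset Pool.Agent.Q109.Polar

universe u v

variable {k : Type u} [Field k]

/-- in characteristic `p`, if `p ^ e ≤ N` and all exponents in `β` are less than `p ^ e`, the
coefficient of `(∑ t_i y_i) ^ N` at `t ^ β` is zero -/
theorem coeff_zero (p : ℕ) [hp : Fact p.Prime] [CharP k p] (n N e : ℕ) (hN : p ^ e ≤ N)
    (β : Fin n →₀ ℕ) (hβ : ∀ i, β i < p ^ e) :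
    (polar n ((X 0 : MvPolynomial (Fin 1) k) ^ N)).coeff β = 0 := by
  classical
  have h : polar n (X 0 : MvPolynomial (Fin 1) k) =
      ∑ i, (X i : MvPolynomial (Fin n) (MvPolynomial (Fin n × Fin 1) k)) * C (X (i, 0)) := by
    unfold polar
    rw [aeval_X]
  have hc1 : CharP (MvPolynomial (Fin n × Fin 1) k) p :=
    charP_of_injective_algebraMap (MvPolynomial.C_injective _ _) p
  have hc2 : CharP (MvPolynomial (Fin n) (MvPolynomial (Fin n × Fin 1) k)) p :=
    charP_of_injective_ringHom (MvPolynomial.C_injective (Fin n) _) p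
  obtain ⟨M, rfl⟩ := Nat.exists_eq_add_of_le hN
  rw [map_pow, pow_add, h, sum_pow_char_pow, Finset.sum_mul, coeff_sum]
  refine Finset.sum_eq_zero fun i _ => ?_
  have h1 : ((X i : MvPolynomial (Fin n) (MvPolynomial (Fin n × Fin 1) k)) * C (X (i, 0))) ^ p ^ e =
      monomial (Finsupp.single i (p ^ e)) (X (i, 0) ^ p ^ e) := by
    rw [mul_pow, ← map_pow, mul_comm, C_mul_X_pow_eq_monomial]
  rw [h1, coeff_monomial_mul', if_neg]
  intro h2
  have h3 := h2 i
  rw [Finsupp.single_eq_same] at h3
  exact absurd (hβ i) (not_lt.2 h3)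

/-- the polynomials with all nonconstant monomials divisible by some `y_i ^ Q` -/
def big (k : Type u) [Field k] (n Q : ℕ) : Subalgebra k (MvPolynomial (Fin n × Fin 1) k) where
  carrier := {f | ∀ γ, coeff γ f ≠ 0 → γ = 0 ∨ ∃ l, Q ≤ γ l}
  mul_mem' := by
    classical
    intro a b ha hb γ hγ
    rw [coeff_mul] at hγ
    obtain ⟨⟨u, v⟩, huv, hne⟩ := Finset.exists_ne_zero_of_sum_ne_zero hγ
    rw [Finset.HasAntidiagonal.mem_antidiagonal] at huv
    simp only at huv hne
    rcases ha u (left_ne_zero_of_mul hne) with hu | ⟨l, hl⟩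
    · rcases hb v (right_ne_zero_of_mul hne) with hv | ⟨l, hl⟩
      · left
        rw [← huv, hu, hv, add_zero]
      · right
        refine ⟨l, ?_⟩
        rw [← huv, Finsupp.add_apply]
        omega
    · right
      refine ⟨l, ?_⟩
      rw [← huv, Finsupp.add_apply]
      omega
  add_mem' := by
    intro a b ha hb γ hγ
    by_cases h : coeff γ a = 0
    · rw [coeff_add, h, zero_add] at hγ
      exact hb γ hγ
    · exact ha γ h
  algebraMap_mem' := by
    classical
    intro c γ hγ
    rw [MvPolynomial.algebraMap_eq, coeff_C] at hγ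
    left
    by_contra h
    rw [if_neg (fun h' => h h'.symm)] at hγ
    exact hγ rfl

theorem mem_big (n Q : ℕ) (f : MvPolynomial (Fin n × Fin 1) k) :
    f ∈ big k n Q ↔ ∀ γ, coeff γ f ≠ 0 → γ = 0 ∨ ∃ l, Q ≤ γ l := Iff.rfl

variable {G : Type v} [Group G] (ρ : G →* Matrix (Fin 1) (Fin 1) k)

theorem P_le_big (p : ℕ) [hp : Fact p.Prime] [CharP k p] (n r e : ℕ)
    (hr : ∀ j, (∀ g, ρ g 0 0 ^ j = 1) ↔ r ∣ j) (he : p ^ e ≤ r) :
    P ρ n ≤ big k n (p ^ e) := by
  classical
  refine Algebra.adjoin_le ?_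
  rintro h ⟨f, hf, β, rfl⟩
  rw [SetLike.mem_coe, f.as_sum, map_sum, coeff_sum]
  refine sum_mem fun δ hδ => ?_
  have h1 : r ∣ δ.degree := (hr _).1 fun g => by
    have := hf g
    rw [actV_eq, scale_inv_iff] at this
    exact this δ hδ
  have h2 : monomial δ (coeff δ f) = coeff δ f • (X 0 : MvPolynomial (Fin 1) k) ^ δ.degree := by
    have h9 : Finsupp.single (0 : Fin 1) (δ 0) = δ := by
      refine Finsupp.ext fun i => ?_
      have : i = 0 := Subsingleton.elim _ _
      subst this
      exact Finsupp.single_eq_same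
    rw [Finsupp.degree_eq_sum, Fin.sum_univ_one, smul_eq_C_mul, C_mul_X_pow_eq_monomial, h9]
  have h3 : (polar n (monomial δ (coeff δ f))).coeff β =
      coeff δ f • (polar n ((X 0 : MvPolynomial (Fin 1) k) ^ δ.degree)).coeff β := by
    rw [h2, map_smul]
    rfl
  rw [h3]
  refine (big k n (p ^ e)).smul_mem ?_ _
  rcases Nat.eq_zero_or_pos δ.degree with h0 | h0
  · rw [h0, pow_zero, map_one, coeff_one]
    split_ifs
    · exact one_mem _
    · exact zero_mem _
  · have h4 : p ^ e ≤ δ.degree := he.trans (Nat.le_of_dvd h0 h1)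
    by_cases hβ : ∀ i, β i < p ^ e
    · rw [coeff_zero p n _ e h4 β hβ]
      exact zero_mem _
    · push Not at hβ
      obtain ⟨l, hl⟩ := hβ
      rw [coeff_polar]
      split_ifs with h5
      · rw [mem_big]
        intro γ hγ
        right
        refine ⟨(l, 0), ?_⟩
        rw [← C_eq_coe_nat, coeff_C_mul] at hγ
        have h6 := right_ne_zero_of_mul hγ
        have h7 : (∏ i, (X (i, 0) : MvPolynomial (Fin n × Fin 1) k) ^ β i) =
            monomial (Finsupp.equivFunOnFinite.symm fun ia : Fin n × Fin 1 => β ia.1) 1 := by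
          rw [monomial_eq, C_1, one_mul, Finsupp.prod_fintype _ _ fun _ => pow_zero _,
            Fintype.prod_prod_type]
          refine Finset.prod_congr rfl fun i _ => ?_
          rw [Fin.prod_univ_one]
          rfl
        rw [h7, coeff_monomial] at h6
        have h8 : (Finsupp.equivFunOnFinite.symm fun ia : Fin n × Fin 1 => β ia.1) = γ := by
          by_contra h9
          rw [if_neg h9] at h6
          exact h6 rfl
        rw [← h8]
        exact hl
      · exact zero_mem _

/-- **the lower bound on the line** -/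
theorem lower (p : ℕ) [hp : Fact p.Prime] [CharP k p] (n r d : ℕ)
    (hr : ∀ j, (∀ g, ρ g 0 0 ^ j = 1) ↔ r ∣ j) (hd : p ^ (d + 1) ≤ r) (hn : r ≤ n) :
    ∃ f : MvPolynomial (Fin n × Fin 1) k, (∀ g, act ρ n g f = f) ∧ f ^ p ^ d ∉ P ρ n := by
  classical
  have hp0 : 0 < p := hp.out.pos
  refine ⟨monomial (Finsupp.equivFunOnFinite.symm fun ia : Fin n × Fin 1 =>
    if (ia.1 : ℕ) < r then 1 else 0) 1, fun g => ?_, fun h => ?_⟩
  · rw [act_eq, scale_inv_iff]
    intro γ hγ
    rw [mem_support_iff, coeff_monomial] at hγ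
    have h8 : (Finsupp.equivFunOnFinite.symm fun ia : Fin n × Fin 1 =>
        if (ia.1 : ℕ) < r then 1 else 0) = γ := by
      by_contra h9
      rw [if_neg h9] at hγ
      exact hγ rfl
    rw [← h8]
    refine (hr _).2 ?_ g
    rw [Finsupp.degree_eq_sum, Fintype.sum_prod_type]
    simp only [Finsupp.equivFunOnFinite_symm_apply_apply, Finset.univ_unique, Fin.default_eq_zero,
      Fin.isValue, Finset.sum_singleton]
    have h9 : (∑ x : Fin n, if (x : ℕ) < r then 1 else 0) = r := by
      rw [Finset.sum_boole, Nat.cast_id]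
      have : (Finset.univ.filter fun x : Fin n => (x : ℕ) < r) =
          (Finset.univ : Finset (Fin r)).map (Fin.castLEEmb hn) := by
        ext x
        simp only [Finset.mem_filter, Finset.mem_univ, true_and, Finset.mem_map]
        constructor
        · intro hx
          exact ⟨⟨x, hx⟩, Fin.ext rfl⟩
        · rintro ⟨z, rfl⟩
          exact z.2
      rw [this, Finset.card_map, Finset.card_univ, Fintype.card_fin]
    rw [h9]
  · have h1 := P_le_big ρ p n r (d + 1) hr hd h
    rw [monomial_pow, one_pow, mem_big] at h1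
    have h2 := h1 _ (by rw [coeff_monomial, if_pos rfl]; exact one_ne_zero)
    have hrpos : 0 < r := lt_of_lt_of_le (pow_pos hp0 _) hd
    rcases h2 with h2 | ⟨l, hl⟩
    · have h3 := DFunLike.congr_fun h2 (⟨0, lt_of_lt_of_le hrpos hn⟩, 0)
      simp only [Finsupp.smul_apply, Finsupp.equivFunOnFinite_symm_apply_apply, hrpos, if_true,
        smul_eq_mul, mul_one, Finsupp.coe_zero, Pi.zero_apply] at h3
      exact absurd h3 (pow_pos hp0 d).ne'
    · rw [Finsupp.smul_apply, Finsupp.equivFunOnFinite_symm_apply_apply, smul_eq_mul] at hl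
      have h4 : p ^ d * (if (l.1 : ℕ) < r then 1 else 0) ≤ p ^ d := by
        split_ifs
        · rw [mul_one]
        · rw [mul_zero]
          exact Nat.zero_le _
      have h5 : p ^ d < p ^ (d + 1) := Nat.pow_lt_pow_right hp.out.one_lt (Nat.lt_succ_self d)
      omega

end Pool.Agent.H30.PR
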