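import Pool.Agent.H30.PR.Uni2
import Pool.Agent.H30.PR.Low

/-!
The statements in terms of the order of the image of the group.
-/

set_option autoImplicit false

namespace Pool.Agent.H30.PR

open MvPolynomial Finset Pool.Agent.Q109.Polar

universe u v w

variable {k : Type u} [Field k] {G : Type v} [Group G] {m : ℕ}

/-- the `p ^ d`-th power of every invariant of `V ^ n` lies in `P_n` -/
def Works (p : ℕ) (ρ : G →* Matrix (Fin m) (Fin m) k) (n d : ℕ) : Prop :=
  ∀ f : MvPolynomial (Fin n × Fin m) k, (∀ g, act ρ n g f = f) → f ^ p ^ d ∈ P ρ n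

theorem works_comp {H : Type w} [Group H] (p : ℕ) (ρ : H →* Matrix (Fin m) (Fin m) k) (π : G →* H)
    (hπ : Function.Surjective π) (n d : ℕ) : Works p (ρ.comp π) n d ↔ Works p ρ n d := by
  unfold Works
  rw [P_comp ρ π hπ n]
  refine forall_congr' fun f => imp_congr_left ⟨fun h g => ?_, fun h g => h (π g)⟩
  obtain ⟨g', rfl⟩ := hπ g
  exact h g'

/-- the uniform bound in terms of the order of the image -/
theorem uniform_range (p : ℕ) [Fact p.Prime] [CharP k p] (ρ : G →* Matrix (Fin m) (Fin m) k)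
    (hfin : (Set.range ρ).Finite) (n : ℕ) :
    Works p ρ n (padicValNat p (Nat.card (Set.range ρ)) + Nat.clog p (Nat.card (Set.range ρ))) := by
  let ρ' : G ⧸ ρ.ker →* Matrix (Fin m) (Fin m) k := QuotientGroup.lift ρ.ker ρ le_rfl
  have h1 : ρ = ρ'.comp (QuotientGroup.mk' ρ.ker) := by
    ext g : 1
    rfl
  have hinj : Function.Injective ρ' := by
    intro x y
    refine Quotient.inductionOn₂' x y fun a b hab => ?_
    have hab' : ρ a = ρ b := hab
    refine QuotientGroup.eq.2 ?_
    rw [MonoidHom.mem_ker, map_mul, ← hab', ← map_mul, inv_mul_cancel, map_one]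
  have hrange : Set.range ρ' = Set.range ρ := by
    ext x
    constructor
    · rintro ⟨y, rfl⟩
      obtain ⟨g, rfl⟩ := QuotientGroup.mk'_surjective ρ.ker y
      exact ⟨g, rfl⟩
    · rintro ⟨g, rfl⟩
      exact ⟨QuotientGroup.mk' ρ.ker g, rfl⟩
  have hcard : Nat.card (G ⧸ ρ.ker) = Nat.card (Set.range ρ) := by
    rw [← hrange]
    exact Nat.card_congr (Equiv.ofInjective ρ' hinj)
  have hfin' : Finite (G ⧸ ρ.ker) := by
    have : Finite (Set.range ρ') := by
      rw [hrange]
      exact hfin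
    exact Finite.of_injective (fun x => (⟨ρ' x, x, rfl⟩ : Set.range ρ')) fun x y hxy =>
      hinj (congrArg Subtype.val hxy)
  rw [← hcard]
  have h2 : Works p ρ' n (padicValNat p (Nat.card (G ⧸ ρ.ker)) +
      Nat.clog p (Nat.card (G ⧸ ρ.ker))) := fun f hf => uniform p k _ m ρ' n f hf
  have h3 := (works_comp p ρ' (QuotientGroup.mk' ρ.ker) (QuotientGroup.mk'_surjective _) n _).2 h2
  rwa [← h1] at h3

/-- on a line the order of the image is the exponent -/
theorem line_order (ρ : G →* Matrix (Fin 1) (Fin 1) k) (hfin : (Set.range ρ).Finite) (j : ℕ) :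
    (∀ g, ρ g 0 0 ^ j = 1) ↔ Nat.card (Set.range ρ) ∣ j := by
  let χ : G →* k :=
    { toFun := fun g => ρ g 0 0
      map_one' := by rw [map_one]; rfl
      map_mul' := fun g h => by
        rw [map_mul, Matrix.mul_apply, Fin.sum_univ_one] }
  let S : Subgroup kˣ := χ.toHomUnits.range
  have hinj : Function.Injective (fun x : Matrix (Fin 1) (Fin 1) k => x 0 0) := by
    intro x y hxy
    ext i j
    rw [Subsingleton.elim i 0, Subsingleton.elim j 0]
    exact hxy
  have e : Set.range ρ ≃ S := by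
    refine Equiv.ofBijective (fun x => ⟨χ.toHomUnits x.2.choose, ⟨_, rfl⟩⟩) ⟨?_, ?_⟩
    · intro x y hxy
      have h1 := congrArg (fun z : S => ((z : kˣ) : k)) hxy
      simp only [MonoidHom.coe_toHomUnits] at h1
      apply Subtype.ext
      rw [← x.2.choose_spec, ← y.2.choose_spec]
      exact hinj h1
    · rintro ⟨_, ⟨g, rfl⟩⟩
      refine ⟨⟨ρ g, g, rfl⟩, ?_⟩
      apply Subtype.ext
      apply Units.ext
      simp only [MonoidHom.coe_toHomUnits]
      have h2 : ρ (⟨ρ g, g, rfl⟩ : Set.range ρ).2.choose = ρ g :=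
        (⟨ρ g, g, rfl⟩ : Set.range ρ).2.choose_spec
      change ρ _ 0 0 = ρ g 0 0
      rw [h2]
  have hS : Finite S := by
    have : Finite (Set.range ρ) := hfin
    exact Finite.of_equiv _ e
  rw [Nat.card_congr e, ← IsCyclic.exponent_eq_card, Monoid.exponent_dvd_iff_forall_pow_eq_one]
  constructor
  · rintro h ⟨_, ⟨g, rfl⟩⟩
    apply Subtype.ext
    apply Units.ext
    simp only [Subgroup.coe_pow, Units.val_pow_eq_pow_val, MonoidHom.coe_toHomUnits,
      Subgroup.coe_one, Units.val_one]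
    exact h g
  · intro h g
    have h1 := congrArg (fun z : S => ((z : kˣ) : k)) (h ⟨χ.toHomUnits g, ⟨g, rfl⟩⟩)
    simp only [Subgroup.coe_pow, Units.val_pow_eq_pow_val, MonoidHom.coe_toHomUnits,
      Subgroup.coe_one, Units.val_one] at h1
    exact h1

theorem card_range_pos (ρ : G →* Matrix (Fin m) (Fin m) k) (hfin : (Set.range ρ).Finite) :
    0 < Nat.card (Set.range ρ) := by
  have : Finite (Set.range ρ) := hfin
  have : Nonempty (Set.range ρ) := ⟨⟨ρ 1, 1, rfl⟩⟩
  exact Nat.card_pos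

/-- **the exact exponent for modules of dimension one** -/
theorem exact_line (p : ℕ) [hp : Fact p.Prime] [CharP k p] (ρ : G →* Matrix (Fin 1) (Fin 1) k)
    (hfin : (Set.range ρ).Finite) :
    (∀ n, Works p ρ n (Nat.log p (Nat.card (Set.range ρ)))) ∧
    ∀ n, Nat.card (Set.range ρ) ≤ n → ∀ d, Works p ρ n d ↔
      Nat.log p (Nat.card (Set.range ρ)) ≤ d := by
  have hr := line_order ρ hfin
  have hpos := card_range_pos ρ hfin
  set r := Nat.card (Set.range ρ) with hrdef
  have hup : ∀ n d, Nat.log p r ≤ d → Works p ρ n d := fun n d hd f hf => by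
    refine upper p n ρ r d hr ?_ f hf
    exact Nat.lt_pow_of_log_lt hp.out.one_lt (Nat.lt_succ_of_le hd)
  refine ⟨fun n => hup n _ le_rfl, fun n hn d => ⟨fun h => ?_, hup n d⟩⟩
  by_contra h1
  push Not at h1
  have h2 : p ^ (d + 1) ≤ r := Nat.pow_le_of_le_log hpos.ne' h1
  obtain ⟨f, hf, hf'⟩ := lower ρ p n r d hr h2 hn
  exact hf' (h f hf)

/-- **the exponent for the transvections** -/
theorem bound_uni (E : Type v) [Field E] [Finite E] [Algebra E k] (p a : ℕ) [hp : Fact p.Prime]
    (hE : Nat.card E = p ^ a) (h2 : 2 < Nat.card E) (n : ℕ) (hn : 2 ≤ n) (d : ℕ)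
    (h : Works p (rhoUni E k) n d) : a ≤ d := by
  have : Fintype E := Fintype.ofFinite E
  by_contra h1
  push Not at h1
  have h3 : p ^ d < p ^ a := Nat.pow_lt_pow_right hp.out.one_lt h1
  have h4 : p ^ d + 1 < Fintype.card E := by
    rw [← Nat.card_eq_fintype_card, hE]
    rw [hE] at h2
    by_contra h5
    push Not at h5
    have h6 : p ^ a = p ^ d + 1 := by omega
    have h7 : p ^ d ∣ p ^ a := pow_dvd_pow _ h1.le
    rw [h6] at h7
    have h8 : p ^ d ∣ 1 := (Nat.dvd_add_right dvd_rfl).1 h7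
    have h9 : p ^ d = 1 := Nat.dvd_one.1 h8
    omega
  obtain ⟨f, hf, hf'⟩ := lower_uni (E := E) (k := k) n (p ^ d) hn (pow_pos hp.out.pos d) h4
  exact hf' (h f hf)

end Pool.Agent.H30.PR
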