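import Mathlib

/-!
Gaps of exponent vectors (Göbel).
-/

set_option autoImplicit false

namespace Pool.Agent.H30.PR

open Finset

variable {m : ℕ}

theorem exists_mex (β : Fin m → ℕ) : ∃ v, ∀ a, β a ≠ v := by
  refine ⟨(∑ a, β a) + 1, fun a h => ?_⟩
  have := Finset.single_le_sum (f := β) (fun _ _ => Nat.zero_le _) (Finset.mem_univ a)
  omega

open Classical in
/-- the least number that is not a value of `β` -/
noncomputable def mex (β : Fin m → ℕ) : ℕ := Nat.find (exists_mex β)

theorem mex_ne (β : Fin m → ℕ) (a : Fin m) : β a ≠ mex β := by
  classical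
  exact Nat.find_spec (exists_mex β) a

theorem exists_of_lt_mex (β : Fin m → ℕ) (v : ℕ) (hv : v < mex β) : ∃ a, β a = v := by
  classical
  have := Nat.find_min (exists_mex β) hv
  push Not at this
  exact this

theorem mex_comp (β : Fin m → ℕ) (e : Equiv.Perm (Fin m)) : mex (fun a => β (e a)) = mex β := by
  classical
  unfold mex
  congr 1
  ext v
  constructor
  · intro h a
    have := h (e.symm a)
    simpa using this
  · intro h a
    exact h (e a)

/-- the indices above the gap -/
noncomputable def top (β : Fin m → ℕ) (a : Fin m) : Bool := decide (mex β < β a)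

/-- lower by one above the gap -/
noncomputable def low (β : Fin m → ℕ) (a : Fin m) : ℕ := β a - (top β a).toNat

theorem low_add (β : Fin m → ℕ) (a : Fin m) : low β a + (top β a).toNat = β a := by
  unfold low
  refine Nat.sub_add_cancel ?_
  unfold top
  by_cases h : mex β < β a
  · simp only [h, decide_true, Bool.toNat_true]
    omega
  · simp [h]

/-- without a gap the degree is at most `m (m - 1) / 2` -/
theorem sum_le_of_no_gap (β : Fin m → ℕ) (h : ∀ a, β a < mex β) :
    ∑ a, β a ≤ m * (m - 1) / 2 := by
  classical
  -- the number of indices with value at least `v` is at most `m - v`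
  have h1 : ∀ v, ((univ : Finset (Fin m)).filter fun a => v < β a).card ≤ m - (v + 1) := by
    intro v
    by_cases hv : v < mex β
    · have h2 : (range (v + 1)).card ≤
          ((univ : Finset (Fin m)).filter fun a => ¬ v < β a).card := by
        have h3 : ∀ w ∈ range (v + 1), ∃ a, β a = w := fun w hw =>
          exists_of_lt_mex β w (lt_of_lt_of_le (Finset.mem_range.1 hw) hv)
        have : Nonempty (Fin m) := ⟨(exists_of_lt_mex β v hv).choose⟩
        choose! g hg using h3
        refine Finset.card_le_card_of_injOn g (fun w hw => ?_) (fun w hw w' hw' hww => ?_)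
        · have hw2 := hg w hw
          have hw3 := Finset.mem_range.1 hw
          simp only [Finset.coe_filter, Finset.mem_univ, true_and, Set.mem_ofPred_eq]
          omega
        · rw [← hg w hw, ← hg w' hw', hww]
      have h4 := Finset.card_filter_add_card_filter_not (s := (univ : Finset (Fin m)))
        (fun a => v < β a)
      rw [Finset.card_univ, Fintype.card_fin] at h4
      rw [Finset.card_range] at h2
      omega
    · have h5 : ((univ : Finset (Fin m)).filter fun a => v < β a) = ∅ := by
        refine Finset.filter_eq_empty_iff.2 fun a _ => ?_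
        have := h a
        omega
      rw [h5]
      simp
  have h6 : ∀ a, β a = ∑ v ∈ range m, if v < β a then 1 else 0 := by
    intro a
    have h7 : β a ≤ m := by
      have h8 := h1 (β a - 1)
      by_contra h9
      push Not at h9
      have h10 : a ∈ ((univ : Finset (Fin m)).filter fun b => β a - 1 < β b) := by
        simp only [Finset.mem_filter, Finset.mem_univ, true_and]
        omega
      have h11 := Finset.card_pos.2 ⟨a, h10⟩
      omega
    rw [Finset.sum_boole, Nat.cast_id]
    have h8 : ((range m).filter fun v => v < β a) = range (β a) := by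
      ext v
      simp only [Finset.mem_filter, Finset.mem_range]
      omega
    rw [h8, Finset.card_range]
  calc ∑ a, β a = ∑ a, ∑ v ∈ range m, (if v < β a then 1 else 0) :=
        Finset.sum_congr rfl fun a _ => h6 a
    _ = ∑ v ∈ range m, ∑ a, (if v < β a then 1 else 0) := Finset.sum_comm
    _ = ∑ v ∈ range m, ((univ : Finset (Fin m)).filter fun a => v < β a).card := by
        refine Finset.sum_congr rfl fun v _ => ?_
        rw [Finset.sum_boole, Nat.cast_id]
    _ ≤ ∑ v ∈ range m, (m - 1 - v) := Finset.sum_le_sum fun v _ => by
        have := h1 v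
        omega
    _ = ∑ v ∈ range m, v := Finset.sum_range_reflect (fun v => v) m
    _ = m * (m - 1) / 2 := Finset.sum_range_id m

/-- if the degree is larger there is an index above the gap -/
theorem exists_top (β : Fin m → ℕ) (h : m * (m - 1) / 2 < ∑ a, β a) : ∃ a, top β a = true := by
  by_contra h1
  have h2 : ∀ a, β a < mex β := fun a => by
    have h3 : ¬ mex β < β a := fun h5 => h1 ⟨a, by unfold top; exact decide_eq_true h5⟩
    have h4 := mex_ne β a
    omega
  exact absurd (sum_le_of_no_gap β h2) (not_le.2 h)

/-- the number of elements of a set given by its characteristic function -/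
def cnt (B : Fin m → Bool) : ℕ := ∑ a, (B a).toNat

/-- the squares decrease -/
theorem sq_lt (β : Fin m → ℕ) (B : Fin m → Bool) (hB : cnt B = cnt (top β)) (hne : B ≠ top β) :
    ∑ a, (low β a + (B a).toNat) ^ 2 < ∑ a, β a ^ 2 := by
  classical
  -- weights
  have h1 : ∀ a, (low β a + (B a).toNat) ^ 2 + 2 * mex β * (top β a).toNat + (top β a).toNat ≤
      β a ^ 2 + 2 * mex β * (B a).toNat + (B a).toNat ∧
      (B a ≠ top β a → B a = true → (low β a + (B a).toNat) ^ 2 + 2 * mex β * (top β a).toNat +
        (top β a).toNat < β a ^ 2 + 2 * mex β * (B a).toNat + (B a).toNat) := by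
    intro a
    have h2 := low_add β a
    have h3 := mex_ne β a
    have hf : (false : Bool).toNat = 0 := rfl
    have ht1 : (true : Bool).toNat = 1 := rfl
    rcases hb : B a with _ | _ <;> rcases ht : top β a with _ | _ <;> rw [ht] at h2
    · rw [hf, add_zero] at h2
      simp only [hf, add_zero, mul_zero]
      rw [h2]
      exact ⟨le_rfl, fun h => absurd rfl h⟩
    · have h4 : mex β < β a := by
        unfold top at ht
        exact of_decide_eq_true ht
      simp only [Bool.toNat_false, Bool.toNat_true, add_zero, mul_one, mul_zero] at h2 ⊢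
      refine ⟨?_, fun _ h => absurd h (by decide)⟩
      have h5 : mex β ≤ low β a := by omega
      rw [← h2]
      nlinarith
    · have h4 : ¬ mex β < β a := by
        unfold top at ht
        exact of_decide_eq_false ht
      simp only [Bool.toNat_false, Bool.toNat_true, add_zero, mul_one, mul_zero] at h2 ⊢
      have h5 : low β a + 1 ≤ mex β := by omega
      rw [← h2]
      constructor
      · nlinarith
      · intro _ _
        nlinarith
    · rw [h2]
      exact ⟨le_rfl, fun h => absurd rfl h⟩
  have h6 : ∃ a, B a ≠ top β a ∧ B a = true := by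
    by_contra h7
    push Not at h7
    apply hne
    have h8 : ∀ a, (B a).toNat ≤ (top β a).toNat := fun a => by
      by_cases h9 : B a = top β a
      · rw [h9]
      · have := h7 a h9
        rcases hb : B a with _ | _
        · exact Nat.zero_le _
        · exact absurd hb this
    have h9 : ∀ a, (B a).toNat = (top β a).toNat := by
      intro a
      by_contra h10
      have h11 : (B a).toNat < (top β a).toNat := lt_of_le_of_ne (h8 a) h10
      have h12 : cnt B < cnt (top β) :=
        Finset.sum_lt_sum (fun b _ => h8 b) ⟨a, Finset.mem_univ a, h11⟩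
      omega
    funext a
    have := h9 a
    rcases hb : B a with _ | _ <;> rcases ht : top β a with _ | _
    · rfl
    · rw [hb, ht] at this
      exact absurd this (by decide)
    · rw [hb, ht] at this
      exact absurd this (by decide)
    · rfl
  obtain ⟨a0, h7, h8⟩ := h6
  have h9 : ∑ a, ((low β a + (B a).toNat) ^ 2 + 2 * mex β * (top β a).toNat +
      (top β a).toNat) < ∑ a, (β a ^ 2 + 2 * mex β * (B a).toNat + (B a).toNat) :=
    Finset.sum_lt_sum (fun a _ => (h1 a).1) ⟨a0, Finset.mem_univ a0, (h1 a0).2 h7 h8⟩
  simp only [Finset.sum_add_distrib, ← Finset.mul_sum] at h9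
  unfold cnt at hB
  rw [hB] at h9
  omega

/-- the squares decrease when one subtracts the indices above the gap -/
theorem sq_low_lt (β : Fin m → ℕ) (h : ∃ a, top β a = true) :
    ∑ a, low β a ^ 2 < ∑ a, β a ^ 2 := by
  obtain ⟨a0, h0⟩ := h
  refine Finset.sum_lt_sum (fun a _ => ?_) ⟨a0, Finset.mem_univ a0, ?_⟩
  · exact Nat.pow_le_pow_left (by have := low_add β a; omega) 2
  · refine Nat.pow_lt_pow_left ?_ two_ne_zero
    have := low_add β a0
    rw [h0, Bool.toNat_true] at this
    omega

end Pool.Agent.H30.PR
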