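import Pool.Graph.R_pool_sql_team_seeded_2aa45f1a.Q109.Polar.Defs
import Pool.Agent.H30.PR.Digits

/-!
Polarizations and invariants for a one-dimensional module.
-/

set_option autoImplicit false

namespace Pool.Agent.H30.PR

open MvPolynomial Finset Pool.Agent.Q109.Polar
open scoped Pointwise

universe u v

section scale

variable {k : Type u} [Field k] {σ : Type v}

/-- scaling all variables by `s` multiplies the coefficient at `γ` by `s ^ |γ|` -/
theorem coeff_scale (s : k) (f : MvPolynomial σ k) (γ : σ →₀ ℕ) :
    coeff γ (aeval (fun i => C s * X i : σ → MvPolynomial σ k) f) =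
      s ^ γ.degree * coeff γ f := by
  classical
  induction f using MvPolynomial.induction_on' with
  | monomial u a =>
    rw [aeval_monomial]
    have h1 : (u.prod fun i e => (C s * X i : MvPolynomial σ k) ^ e) =
        C (s ^ u.degree) * monomial u 1 := by
      simp only [mul_pow]
      rw [Finsupp.prod_mul]
      congr 1
      · rw [Finsupp.prod, Finset.prod_pow_eq_pow_sum, map_pow]
        rfl
      · rw [monomial_eq, C_1, one_mul]
    rw [h1, MvPolynomial.algebraMap_eq, ← mul_assoc, ← C_mul, coeff_C_mul, coeff_monomial,
      coeff_monomial]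
    split_ifs with h
    · rw [h]
      ring
    · simp
  | add p q hp hq =>
    rw [map_add, coeff_add, coeff_add, hp, hq, mul_add]

theorem scale_inv_iff (s : k) (f : MvPolynomial σ k) :
    aeval (fun i => C s * X i : σ → MvPolynomial σ k) f = f ↔
      ∀ γ ∈ f.support, s ^ γ.degree = 1 := by
  constructor
  · intro h γ hγ
    have h1 := coeff_scale s f γ
    rw [h] at h1
    have h2 : coeff γ f ≠ 0 := mem_support_iff.1 hγ
    field_simp at h1
    exact h1.symm
  · intro h
    ext γ
    rw [coeff_scale]
    by_cases hγ : γ ∈ f.support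
    · rw [h γ hγ, one_mul]
    · rw [notMem_support_iff.1 hγ, mul_zero]

end scale

section line

variable {k : Type u} {G : Type v} [Field k] [Group G] (ρ : G →* Matrix (Fin 1) (Fin 1) k)

theorem actV_eq (g : G) : actV ρ g = aeval (fun i => C (ρ g 0 0) * X i) := by
  unfold actV
  congr 1
  funext a
  rw [Fin.sum_univ_one]
  have : a = 0 := Subsingleton.elim _ _
  subst this
  rfl

theorem act_eq (n : ℕ) (g : G) : act ρ n g = aeval (fun i => C (ρ g 0 0) * X i) := by
  unfold act
  congr 1
  funext ia
  rw [Fin.sum_univ_one]
  obtain ⟨i, a⟩ := ia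
  have : a = 0 := Subsingleton.elim _ _
  subst this
  rfl

/-- the coefficient of the polarization of a monomial on the line -/
theorem coeff_polar (n N : ℕ) (β : Fin n →₀ ℕ) :
    (polar n ((X 0 : MvPolynomial (Fin 1) k) ^ N)).coeff β =
      if β.degree = N then (Nat.multinomial univ β : MvPolynomial (Fin n × Fin 1) k) *
        ∏ i, X (i, 0) ^ β i else 0 := by
  rw [map_pow]
  have h : polar n (X 0 : MvPolynomial (Fin 1) k) =
      ∑ i, (X (i, 0) : MvPolynomial (Fin n × Fin 1) k) • (X i : MvPolynomial (Fin n) _) := by
    unfold polar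
    rw [aeval_X]
    exact Finset.sum_congr rfl fun i _ => by rw [smul_eq_C_mul, mul_comm]
  rw [h, coeff_linearCombination_X_pow_of_fintype]
  have h2 : (β.sum fun _ m => m) = β.degree := rfl
  rw [h2]
  split_ifs with h3
  · rw [Finsupp.multinomial_eq_of_support_subset (Finset.subset_univ _),
      Finsupp.prod_fintype _ _ fun _ => pow_zero _]
  · rfl

end line

end Pool.Agent.H30.PR
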