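import Pool.Agent.H30.PR.Char

/-!
The least exponent valid for all groups of a given order.
-/

set_option autoImplicit false

namespace Pool.Agent.H30.PR

open MvPolynomial Finset Pool.Agent.Q109.Polar

universe u v w

theorem works_mono {k : Type u} [Field k] {G : Type v} [Group G] {m : ℕ} (p : ℕ)
    (ρ : G →* Matrix (Fin m) (Fin m) k) (n d d' : ℕ) (h : Works p ρ n d) (hd : d ≤ d') :
    Works p ρ n d' := fun f hf => by
  obtain ⟨c, rfl⟩ := Nat.exists_eq_add_of_le hd
  rw [pow_add, pow_mul]
  exact pow_mem (h f hf) _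

/-- the exponent `d` is valid for all fields of characteristic `p`, all groups of order `N`, all
finite-dimensional modules and all `n` -/
def Unif (p N d : ℕ) : Prop :=
  ∀ (k : Type) [Field k] [CharP k p] (G : Type) [Group G], Nat.card G = N →
    ∀ (m : ℕ) (ρ : G →* Matrix (Fin m) (Fin m) k) (n : ℕ), Works p ρ n d

theorem unif_upper (p N : ℕ) [Fact p.Prime] (hN : 0 < N) :
    Unif p N (padicValNat p N + Nat.clog p N) := by
  intro k _ _ G _ hG m ρ n f hf
  have : Finite G := Nat.finite_of_card_ne_zero (by omega)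
  rw [← hG]
  exact uniform p k G m ρ n f hf

theorem unif_lower_one (p N a b : ℕ) [hp : Fact p.Prime] (hN : N = p ^ a * b) (hb : ¬ p ∣ b)
    (d : ℕ) (h : Unif p N d) : Nat.clog p b ≤ d := by
  have hb0 : b ≠ 0 := by
    rintro rfl
    exact hb (dvd_zero p)
  have hbk : NeZero (b : AlgebraicClosure (ZMod p)) := ⟨by
    rwa [Ne, CharP.cast_eq_zero_iff (AlgebraicClosure (ZMod p)) p]⟩
  have hbn : NeZero b := ⟨hb0⟩
  obtain ⟨ζ, hζ⟩ := HasEnoughRootsOfUnity.exists_primitiveRoot (AlgebraicClosure (ZMod p)) b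
  let χ : Multiplicative (ZMod (p ^ a)) × rootsOfUnity b (AlgebraicClosure (ZMod p)) →*
      (AlgebraicClosure (ZMod p))ˣ :=
    (Subgroup.subtype _).comp (MonoidHom.snd _ _)
  have hrange : Set.range χ = (rootsOfUnity b (AlgebraicClosure (ZMod p)) : Set _) := by
    ext x
    constructor
    · rintro ⟨g, rfl⟩
      exact g.2.2
    · intro hx
      exact ⟨(1, ⟨x, hx⟩), rfl⟩
  have hc : Nat.card (rootsOfUnity b (AlgebraicClosure (ZMod p))) = b := hζ.card_rootsOfUnity
  have hfin : Finite (rootsOfUnity b (AlgebraicClosure (ZMod p))) :=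
    Nat.finite_of_card_ne_zero (by rw [hc]; exact hb0)
  have h1 := h (AlgebraicClosure (ZMod p))
    (Multiplicative (ZMod (p ^ a)) × rootsOfUnity b (AlgebraicClosure (ZMod p)))
    (by rw [Nat.card_prod, hc, hN, Nat.card_congr Multiplicative.toAdd, Nat.card_zmod])
    2 (rhoChar χ) 2
  rw [exact_char p χ (by rw [hrange]; exact hfin) 2 le_rfl d] at h1
  have h2 : Nat.card (Set.range χ) = b := by
    rw [hrange]
    exact hc
  rwa [h2] at h1

theorem unif_lower_two (p N a b : ℕ) [hp : Fact p.Prime] (hN : N = p ^ a * b) (hb : ¬ p ∣ b)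
    (h2 : p ^ a ≠ 2) (d : ℕ) (h : Unif p N d) : a ≤ d := by
  rcases Nat.eq_zero_or_pos a with rfl | ha
  · exact Nat.zero_le _
  have hb0 : b ≠ 0 := by
    rintro rfl
    exact hb (dvd_zero p)
  have hcardE : Nat.card (GaloisField p a) = p ^ a := GaloisField.card p a ha.ne'
  have hfinE : Finite (GaloisField p a) :=
    Nat.finite_of_card_ne_zero (by rw [hcardE]; exact pow_ne_zero _ hp.out.ne_zero)
  have hch : CharP (AlgebraicClosure (GaloisField p a)) p :=
    charP_of_injective_algebraMap (algebraMap (GaloisField p a) _).injective p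
  have h1 := h (AlgebraicClosure (GaloisField p a))
    (Multiplicative (GaloisField p a) × Multiplicative (ZMod b))
    (by rw [Nat.card_prod, hN, Nat.card_congr Multiplicative.toAdd, hcardE,
      Nat.card_congr Multiplicative.toAdd, Nat.card_zmod])
    2 ((rhoUni (GaloisField p a) _).comp (MonoidHom.fst _ _)) 2
  rw [works_comp p _ _ (fun x => ⟨(x, 1), rfl⟩)] at h1
  refine bound_uni (GaloisField p a) p a hcardE ?_ 2 le_rfl d h1
  rw [hcardE]
  have h3 : p ^ 1 ≤ p ^ a := Nat.pow_le_pow_right hp.out.pos ha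
  have h4 := hp.out.two_le
  rw [pow_one] at h3
  omega

/-- **the optimal exponent for the orders prime to `p`** -/
theorem unif_iff (p N : ℕ) [hp : Fact p.Prime] (hN : ¬ p ∣ N) (d : ℕ) :
    Unif p N d ↔ Nat.clog p N ≤ d := by
  have hN0 : 0 < N := Nat.pos_of_ne_zero (by
    rintro rfl
    exact hN (dvd_zero p))
  constructor
  · intro h
    exact unif_lower_one p N 0 N (by rw [pow_zero, one_mul]) hN d h
  · intro h k _ _ G _ hG m ρ n
    have h1 := unif_upper p N hN0 k G hG m ρ n
    rw [padicValNat.eq_zero_of_not_dvd hN, zero_add] at h1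
    exact works_mono p ρ n _ d h1 h

end Pool.Agent.H30.PR
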