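import Pool.Agent.H30.PR.CTwo
import Pool.Agent.H30.PR.Gap

/-!
Permutation modules: an exponent which depends only on the degree.
-/

set_option autoImplicit false
set_option linter.unusedSectionVars false

namespace Pool.Agent.H30.PR

open MvPolynomial Finset Pool.Agent.Q109.Polar

universe u v w

/-- the permutation module: `g` maps the `b`-th basis vector to the `σ g b`-th one -/
def rhoPerm (k : Type u) [Field k] {G : Type v} [Group G] {m : ℕ} (σ : G →* Equiv.Perm (Fin m)) :
    G →* Matrix (Fin m) (Fin m) k where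
  toFun g := Matrix.of fun a b => if σ g b = a then 1 else 0
  map_one' := by
    ext a b
    simp [Matrix.one_apply, eq_comm]
  map_mul' g h := by
    ext a c
    rw [Matrix.mul_apply, Finset.sum_eq_single (σ h c)]
    · simp [map_mul]
    · intro b _ hb
      simp [Ne.symm hb]
    · simp

section extract

variable {R : Type u} [CommRing R] {m : ℕ}

theorem coeffD (p e : ℕ) [Fact p.Prime] [CharP R p] (ν β : Fin m → ℕ) (A B : Fin m → R)
    (hβ : ∑ a, β a < p ^ e) :
    ((∏ a, (Polynomial.C (A a) + Polynomial.X * Polynomial.C (B a)) ^ ν a) ^ p ^ e *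
      ∏ a, (Polynomial.C (A a) + Polynomial.X * Polynomial.C (B a)) ^ β a).coeff
        (p ^ e * ∑ a, ν a) = (∏ a, B a ^ ν a) ^ p ^ e * ∏ a, A a ^ β a := by
  have hdeg : (∏ a, (Polynomial.C (A a) + Polynomial.X * Polynomial.C (B a)) ^ β a).natDegree <
      p ^ e := by
    refine lt_of_le_of_lt ((Polynomial.natDegree_prod_le _ _).trans
      (Finset.sum_le_sum fun a _ => ?_)) hβ
    refine (Polynomial.natDegree_pow_le).trans ?_
    refine (Nat.mul_le_mul_left _ (?_ : _ ≤ 1)).trans (by rw [mul_one])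
    refine (Polynomial.natDegree_add_le _ _).trans (max_le ?_ ?_)
    · rw [Polynomial.natDegree_C]; exact Nat.zero_le _
    · refine (Polynomial.natDegree_mul_le).trans ?_
      rw [Polynomial.natDegree_C]
      exact Polynomial.natDegree_X_le
  have h := coeff_prod_pow_mul p e (univ : Finset (Σ a : Fin m, Fin (ν a))) (fun h => A h.1)
    (fun h => B h.1) _ hdeg
  have h1 : ∀ {S : Type u} [CommRing S] (f : Fin m → S),
      ∏ h : (Σ a : Fin m, Fin (ν a)), f h.1 = ∏ a, f a ^ ν a := by
    intro S _ f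
    rw [Fintype.prod_sigma]
    exact Finset.prod_congr rfl fun a _ => by simp
  rw [h1 (fun a => Polynomial.C (A a) + Polynomial.X * Polynomial.C (B a)), h1 B] at h
  have h2 : (univ : Finset (Σ a : Fin m, Fin (ν a))).card = ∑ a, ν a := by
    rw [Finset.card_univ, Fintype.card_sigma]
    exact Finset.sum_congr rfl fun a _ => Fintype.card_fin _
  rw [h2] at h
  rw [h]
  congr 1
  rw [Polynomial.coeff_zero_eq_eval_zero, Polynomial.eval_prod]
  exact Finset.prod_congr rfl fun a _ => by simp

end extract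

section perm

variable {k : Type u} {G : Type v} {K : Type w} [Field k] [Group G] {m : ℕ} [Field K] [Algebra k K]
  (σ : G →* Equiv.Perm (Fin m))

theorem AN_perm (n : ℕ) (g : G) (i : Fin n) (a : Fin m) :
    AN (ext K (rhoPerm k σ)) n g (X (i, a)) = X (i, σ g a) := by
  change act (ext K (rhoPerm k σ)) n g⁻¹ (X (i, a)) = _
  rw [act, aeval_X, Finset.sum_eq_single (σ g a)]
  · simp [ext_apply, rhoPerm]
  · intro b _ hb
    have h1 : ¬ (Equiv.symm (σ g)) b = a := by
      rintro rfl
      exact hb (by simp)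
    simp [ext_apply, rhoPerm, h1]
  · simp

theorem AV_perm (g : G) (a : Fin m) :
    AV (ext K (rhoPerm k σ)) g (X a) = X (σ g a) := by
  change actV (ext K (rhoPerm k σ)) g⁻¹ (X a) = _
  rw [actV, aeval_X, Finset.sum_eq_single (σ g a)]
  · simp [ext_apply, rhoPerm]
  · intro b _ hb
    have h1 : ¬ (Equiv.symm (σ g)) b = a := by
      rintro rfl
      exact hb (by simp)
    simp [ext_apply, rhoPerm, h1]
  · simp

/-- the coordinate `x_a` at the vector `∑ s_i v_i` -/
noncomputable def xs (n : ℕ) (s : Fin n → K) (a : Fin m) : MvPolynomial (Fin n × Fin m) K :=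
  ∑ i, C (s i) * X (i, a)

theorem ev_xs (n : ℕ) (s : Fin n → K) (β : Fin m → ℕ) :
    ev n s (∏ a, X a ^ β a) = ∏ a, xs n s a ^ β a := by
  rw [map_prod]
  refine Finset.prod_congr rfl fun a _ => ?_
  rw [map_pow, ev, aeval_X]
  rfl

/-- the product of the monomials with exponents `ν i y` in the vectors `v_i`, `i ∈ L` -/
noncomputable def Wm {n : ℕ} {Y : Type} (L : List (Fin n)) (ν : Fin n → Y → Fin m → ℕ) (y : Y) :
    MvPolynomial (Fin n × Fin m) K :=
  (L.map fun i => ∏ a, X (i, a) ^ ν i y a).prod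

/-- the sum over a finite set with permutations -/
noncomputable def Sm (q : ℕ) {n : ℕ} {Y : Type} [Fintype Y] (L : List (Fin n)) (c : Y → K)
    (ν : Fin n → Y → Fin m → ℕ) (β : Y → Fin m → ℕ) (s : Fin n → K) :
    MvPolynomial (Fin n × Fin m) K :=
  ∑ y, C (c y) * Wm L ν y ^ q * ∏ a, xs n s a ^ β y a

/-- equivariant families -/
def Equi {n : ℕ} {Y : Type} (π : G → Equiv.Perm Y) (c : Y → K)
    (ν : Fin n → Y → Fin m → ℕ) (β : Y → Fin m → ℕ) : Prop :=
  (∀ g y, c (π g y) = c y) ∧ (∀ i g y a, ν i (π g y) (σ g a) = ν i y a) ∧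
    ∀ g y a, β (π g y) (σ g a) = β y a

theorem good_nil (q n : ℕ) (Y : Type) [Fintype Y] (π : G → Equiv.Perm Y) (c : Y → K)
    (ν : Fin n → Y → Fin m → ℕ) (β : Y → Fin m → ℕ) (h : Equi σ π c ν β) (s : Fin n → K) :
    Sm q [] c ν β s ∈ PK K (rhoPerm k σ) n := by
  have h1 : Sm q [] c ν β s = ev n s (∑ y, C (c y) * ∏ a, X a ^ β y a) := by
    rw [map_sum]
    refine Finset.sum_congr rfl fun y _ => ?_
    rw [map_mul, ev_xs, algHom_C, Wm, List.map_nil, List.prod_nil, one_pow, mul_one]
    rfl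
  rw [h1]
  refine ev_mem' _ n s _ fun g => ?_
  rw [map_sum, ← Equiv.sum_comp (π g) (fun y => C (c y) * ∏ a, X a ^ β y a)]
  refine Finset.sum_congr rfl fun y _ => ?_
  rw [map_mul, algHom_C, map_prod, h.1, MvPolynomial.algebraMap_eq]
  congr 1
  rw [← Equiv.prod_comp (σ g) (fun a => X a ^ β (π g y) a)]
  refine Finset.prod_congr rfl fun a _ => ?_
  rw [map_pow, AV_perm, h.2.2]

theorem good_small [Infinite K] (p e n : ℕ) [Fact p.Prime] [CharP K p] (L : List (Fin n))
    (hL : ∀ (Y : Type) [Fintype Y] (π : G → Equiv.Perm Y) (c : Y → K)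
      (ν : Fin n → Y → Fin m → ℕ) (β : Y → Fin m → ℕ), Equi σ π c ν β → ∀ s : Fin n → K,
      Sm (p ^ e) L c ν β s ∈ PK K (rhoPerm k σ) n) (i0 : Fin n)
    (Y : Type) [Fintype Y] (π : G → Equiv.Perm Y) (c : Y → K)
    (ν : Fin n → Y → Fin m → ℕ) (β : Y → Fin m → ℕ) (h : Equi σ π c ν β)
    (hsm : ∀ y, c y ≠ 0 → ∑ a, β y a < p ^ e) (s : Fin n → K) :
    Sm (p ^ e) (i0 :: L) c ν β s ∈ PK K (rhoPerm k σ) n := by
  classical
  have hch : CharP (MvPolynomial (Fin n × Fin m) K) p :=
    charP_of_injective_algebraMap (MvPolynomial.C_injective _ _) p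
  -- the part of degree `l`
  let cl : ℕ → Y → K := fun l y => if ∑ a, ν i0 y a = l then c y else 0
  have hcl : ∀ l g y, cl l (π g y) = cl l y := by
    intro l g y
    have h1 : ∑ a, ν i0 (π g y) a = ∑ a, ν i0 y a := by
      rw [← Equiv.sum_comp (σ g) (fun a => ν i0 (π g y) a)]
      exact Finset.sum_congr rfl fun a _ => h.2.1 i0 g y a
    simp only [cl, h1, h.1]
  have key : ∀ l, ∑ y, C (cl l y) * Wm L ν y ^ p ^ e * ((∏ a, X (i0, a) ^ ν i0 y a) ^ p ^ e *
      ∏ a, xs n s a ^ β y a) ∈ PK K (rhoPerm k σ) n := by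
    intro l
    let D : Fin m → Polynomial (MvPolynomial (Fin n × Fin m) K) := fun a =>
      Polynomial.C (xs n s a) + Polynomial.X * Polynomial.C (X (i0, a))
    let Q : Polynomial (MvPolynomial (Fin n × Fin m) K) :=
      ∑ y, Polynomial.C (C (cl l y) * Wm L ν y ^ p ^ e) *
        ((∏ a, D a ^ ν i0 y a) ^ p ^ e * ∏ a, D a ^ β y a)
    have hQ : ∀ τ : K, Q.eval (algebraMap K _ τ) ∈ Subalgebra.toSubmodule
        (PK K (rhoPerm k σ) n) := by
      intro τ
      have h1 := hL Y π (cl l) ν (fun y a => p ^ e * ν i0 y a + β y a)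
        ⟨hcl l, h.2.1, fun g y a => by simp only [h.2.1 i0, h.2.2]⟩
        (fun i => s i + if i = i0 then τ else 0)
      have h2 : ∀ a, (D a).eval (algebraMap K _ τ) =
          xs n (fun i => s i + if i = i0 then τ else 0) a := by
        intro a
        simp only [D, xs, Polynomial.eval_add, Polynomial.eval_C, Polynomial.eval_mul,
          Polynomial.eval_X, C_add, add_mul, Finset.sum_add_distrib]
        congr 1
        rw [Finset.sum_eq_single i0]
        · rw [if_pos rfl]
          rfl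
        · intro b _ hb
          rw [if_neg hb, C_0, zero_mul]
        · simp
      have heq : Q.eval (algebraMap K _ τ) = Sm (p ^ e) L (cl l) ν
          (fun y a => p ^ e * ν i0 y a + β y a) (fun i => s i + if i = i0 then τ else 0) := by
        simp only [Q, Sm, Polynomial.eval_finsetSum, Polynomial.eval_mul, Polynomial.eval_C,
          Polynomial.eval_pow, Polynomial.eval_prod, h2]
        refine Finset.sum_congr rfl fun y _ => ?_
        congr 1
        rw [← Finset.prod_pow, ← Finset.prod_mul_distrib]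
        refine Finset.prod_congr rfl fun a _ => ?_
        rw [pow_add, mul_comm (p ^ e), pow_mul]
      rw [heq]
      exact h1
    have h3 := coeff_mem_of_eval _ Q hQ (p ^ e * l)
    have heq : (∑ y, C (cl l y) * Wm L ν y ^ p ^ e * ((∏ a, X (i0, a) ^ ν i0 y a) ^ p ^ e *
      ∏ a, xs n s a ^ β y a)) = Q.coeff (p ^ e * l) := ?_
    · rw [heq]
      exact h3
    simp only [Q, Polynomial.finsetSum_coeff, Polynomial.coeff_C_mul]
    refine Finset.sum_congr rfl fun y _ => ?_
    by_cases hy : cl l y = 0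
    · rw [hy, C_0, zero_mul, zero_mul, zero_mul]
    · congr 1
      have hl : ∑ a, ν i0 y a = l := by
        by_contra h4
        exact hy (if_neg h4)
      have hcy : c y ≠ 0 := by
        have h5 : cl l y = c y := if_pos hl
        rwa [h5] at hy
      rw [← hl]
      exact (coeffD p e (ν i0 y) (β y) (fun a => xs n s a) (fun a => X (i0, a)) (hsm y hcy)).symm
  -- add up
  have hfin : Sm (p ^ e) (i0 :: L) c ν β s =
      ∑ l ∈ range (1 + ∑ y, ∑ a, ν i0 y a), ∑ y, C (cl l y) * Wm L ν y ^ p ^ e *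
        ((∏ a, X (i0, a) ^ ν i0 y a) ^ p ^ e * ∏ a, xs n s a ^ β y a) := by
    rw [Finset.sum_comm]
    refine Finset.sum_congr rfl fun y _ => ?_
    rw [← Finset.sum_mul, ← Finset.sum_mul, ← map_sum]
    have h1 : ∑ l ∈ range (1 + ∑ y, ∑ a, ν i0 y a), cl l y = c y := by
      simp only [cl]
      rw [Finset.sum_ite_eq, if_pos]
      rw [Finset.mem_range]
      have := Finset.single_le_sum (f := fun y => ∑ a, ν i0 y a) (fun _ _ => Nat.zero_le _)
        (Finset.mem_univ y)
      omega
    rw [h1, Wm, List.map_cons, List.prod_cons, mul_pow]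
    change _ = C (c y) * Wm L ν y ^ p ^ e * _
    unfold Wm
    ring
  rw [hfin]
  exact Subalgebra.sum_mem _ fun l _ => key l

end perm

end Pool.Agent.H30.PR
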