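import Pool.Agent.H30.PR.Perm

/-!
Permutation modules: reduction of the exponents and the bound.
-/

set_option autoImplicit false
set_option linter.unusedSectionVars false

namespace Pool.Agent.H30.PR

open MvPolynomial Finset Pool.Agent.Q109.Polar

universe u v w

section gapequi

variable {m : ℕ}

theorem mex_equi (β β' : Fin m → ℕ) (e : Equiv.Perm (Fin m)) (h : ∀ a, β' (e a) = β a) :
    mex β' = mex β := by
  rw [← mex_comp β' e]
  congr 1
  funext a
  exact h a

theorem top_equi (β β' : Fin m → ℕ) (e : Equiv.Perm (Fin m)) (h : ∀ a, β' (e a) = β a)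
    (a : Fin m) : top β' (e a) = top β a := by
  unfold top
  rw [mex_equi β β' e h, h]

theorem low_equi (β β' : Fin m → ℕ) (e : Equiv.Perm (Fin m)) (h : ∀ a, β' (e a) = β a)
    (a : Fin m) : low β' (e a) = low β a := by
  unfold low
  rw [top_equi β β' e h, h]

theorem cnt_equi (B B' : Fin m → Bool) (e : Equiv.Perm (Fin m)) (h : ∀ a, B' (e a) = B a) :
    cnt B' = cnt B := by
  unfold cnt
  rw [← Equiv.sum_comp e (fun a => (B' a).toNat)]
  exact Finset.sum_congr rfl fun a _ => by rw [h]

theorem cnt_le (B : Fin m → Bool) : cnt B ≤ m := by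
  unfold cnt
  refine (Finset.sum_le_card_nsmul _ _ 1 fun a _ => ?_).trans ?_
  · cases B a <;> simp
  · simp

open Classical in
/-- multiplication of a monomial by an elementary symmetric polynomial -/
theorem esymm_mul {R : Type u} [CommRing R] (x : Fin m → R) (β : Fin m → ℕ) :
    ∏ a, x a ^ β a =
      (∑ B : Fin m → Bool, if cnt B = cnt (top β) then ∏ a, x a ^ (B a).toNat else 0) *
        ∏ a, x a ^ low β a -
      ∑ B : Fin m → Bool, if cnt B = cnt (top β) ∧ B ≠ top β then
        ∏ a, x a ^ (low β a + (B a).toNat) else 0 := by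
  have h1 : ∀ B : Fin m → Bool, (if cnt B = cnt (top β) then ∏ a, x a ^ (B a).toNat else 0) *
      (∏ a, x a ^ low β a) = (if B = top β then ∏ a, x a ^ β a else 0) +
        if cnt B = cnt (top β) ∧ B ≠ top β then ∏ a, x a ^ (low β a + (B a).toNat) else 0 := by
    intro B
    by_cases hB : B = top β
    · subst hB
      rw [if_pos rfl, if_pos rfl, if_neg (fun h => h.2 rfl), add_zero, ← Finset.prod_mul_distrib]
      refine Finset.prod_congr rfl fun a _ => ?_
      rw [← pow_add, add_comm, low_add]
    · rw [if_neg hB, zero_add]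
      by_cases hc : cnt B = cnt (top β)
      · rw [if_pos hc, if_pos ⟨hc, hB⟩, ← Finset.prod_mul_distrib]
        refine Finset.prod_congr rfl fun a _ => ?_
        rw [← pow_add, add_comm]
      · rw [if_neg hc, if_neg (fun h => hc h.1), zero_mul]
  rw [Finset.sum_mul, Finset.sum_congr rfl fun B _ => h1 B, Finset.sum_add_distrib,
    Finset.sum_ite_eq', if_pos (Finset.mem_univ _), add_sub_cancel_right]

end gapequi

section perm

variable {k : Type u} {G : Type v} {K : Type w} [Field k] [Group G] {m : ℕ} [Field K] [Algebra k K]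
  (σ : G →* Equiv.Perm (Fin m))

theorem Sm_zero (q : ℕ) {n : ℕ} {Y : Type} [Fintype Y] (L : List (Fin n)) (c : Y → K)
    (ν : Fin n → Y → Fin m → ℕ) (β : Y → Fin m → ℕ) (s : Fin n → K) (h : ∀ y, c y = 0) :
    Sm q L c ν β s = 0 :=
  Finset.sum_eq_zero fun y _ => by rw [h, C_0, zero_mul, zero_mul]

theorem good_all [Infinite K] (p e n : ℕ) [Fact p.Prime] [CharP K p]
    (he : m * (m - 1) / 2 < p ^ e) (L : List (Fin n)) (i0 : Fin n)
    (hL : ∀ (Y : Type) [Fintype Y] (π : G → Equiv.Perm Y) (c : Y → K)
      (ν : Fin n → Y → Fin m → ℕ) (β : Y → Fin m → ℕ), Equi σ π c ν β → ∀ s : Fin n → K,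
      Sm (p ^ e) L c ν β s ∈ PK K (rhoPerm k σ) n) (M : ℕ) :
    ∀ (Y : Type) [Fintype Y] (π : G → Equiv.Perm Y) (c : Y → K)
      (ν : Fin n → Y → Fin m → ℕ) (β : Y → Fin m → ℕ), Equi σ π c ν β →
      (∀ y, c y ≠ 0 → ∑ a, β y a ^ 2 < M) → ∀ s : Fin n → K,
      Sm (p ^ e) (i0 :: L) c ν β s ∈ PK K (rhoPerm k σ) n := by
  classical
  induction M with
  | zero =>
    intro Y _ π c ν β h hM s
    rw [Sm_zero]
    · exact Subalgebra.zero_mem _
    · intro y
      by_contra h1
      exact absurd (hM y h1) (Nat.not_lt_zero _)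
  | succ M ih =>
    intro Y _ π c ν β h hM s
    have hdeg : ∀ g y, ∑ a, β (π g y) a = ∑ a, β y a := by
      intro g y
      rw [← Equiv.sum_comp (σ g) (fun a => β (π g y) a)]
      exact Finset.sum_congr rfl fun a _ => h.2.2 g y a
    let c1 : Y → K := fun y => if ∑ a, β y a < p ^ e then c y else 0
    let c2 : Y → K := fun y => if ∑ a, β y a < p ^ e then 0 else c y
    have hc1 : ∀ g y, c1 (π g y) = c1 y := fun g y => by simp only [c1, hdeg, h.1]
    have hc2 : ∀ g y, c2 (π g y) = c2 y := fun g y => by simp only [c2, hdeg, h.1]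
    have hsplit : Sm (p ^ e) (i0 :: L) c ν β s = Sm (p ^ e) (i0 :: L) c1 ν β s +
        Sm (p ^ e) (i0 :: L) c2 ν β s := by
      unfold Sm
      rw [← Finset.sum_add_distrib]
      refine Finset.sum_congr rfl fun y _ => ?_
      by_cases hy : ∑ a, β y a < p ^ e
      · simp only [c1, c2, if_pos hy, C_0, zero_mul, add_zero]
      · simp only [c1, c2, if_neg hy, C_0, zero_mul, zero_add]
    rw [hsplit]
    refine Subalgebra.add_mem _ ?_ ?_
    · refine good_small σ p e n L hL i0 Y π c1 ν β ⟨hc1, h.2.1, h.2.2⟩ (fun y hy => ?_) s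
      by_contra h1
      exact hy (if_neg h1)
    · -- the part of high degree
      have hc2' : ∀ y, c2 y ≠ 0 → (∃ a, top (β y) a = true) ∧ ∑ a, β y a ^ 2 < M + 1 := by
        intro y hy
        have h1 : ¬ ∑ a, β y a < p ^ e := fun h1 => hy (if_pos h1)
        have h2 : c y ≠ 0 := by
          have h3 : c2 y = c y := if_neg h1
          rwa [h3] at hy
        exact ⟨exists_top _ (lt_of_lt_of_le he (not_lt.1 h1)), hM y h2⟩
      have htop : ∀ g y a, top (β (π g y)) (σ g a) = top (β y) a := fun g y a =>
        top_equi _ _ (σ g) (h.2.2 g y) a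
      have hlow : ∀ g y a, low (β (π g y)) (σ g a) = low (β y) a := fun g y a =>
        low_equi _ _ (σ g) (h.2.2 g y) a
      have hcnt : ∀ g y, cnt (top (β (π g y))) = cnt (top (β y)) := fun g y =>
        cnt_equi _ _ (σ g) (htop g y)
      let el : ℕ → MvPolynomial (Fin n × Fin m) K := fun l =>
        ∑ B : Fin m → Bool, if cnt B = l then ∏ a, xs n s a ^ (B a).toNat else 0
      have hel : ∀ l, el l ∈ PK K (rhoPerm k σ) n := by
        intro l
        have h1 := good_nil (k := k) σ (p ^ e) n (Fin m → Bool)
          (fun g => (σ g).arrowCongr (Equiv.refl Bool)) (fun B => if cnt B = l then (1 : K) else 0)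
          (fun _ _ _ => 0) (fun B a => (B a).toNat) ⟨fun g B => by
            have h2 : cnt ((σ g).arrowCongr (Equiv.refl Bool) B) = cnt B :=
              cnt_equi _ _ (σ g) fun a => by simp
            simp only [h2], fun _ _ _ _ => rfl, fun g B a => by simp⟩ s
        have h3 : el l = Sm (p ^ e) [] (fun B : Fin m → Bool => if cnt B = l then (1 : K) else 0)
            (fun _ _ _ => 0) (fun B a => (B a).toNat) s := by
          unfold Sm
          refine Finset.sum_congr rfl fun B _ => ?_
          by_cases hB : cnt B = l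
          · simp only [hB, if_true, C_1, Wm, List.map_nil, List.prod_nil, one_pow, one_mul]
          · simp only [hB, if_false, C_0, zero_mul]
        rw [h3]
        exact h1
      have hmain : Sm (p ^ e) (i0 :: L) c2 ν β s =
          (∑ l ∈ range (m + 1), el l * Sm (p ^ e) (i0 :: L)
            (fun y => if cnt (top (β y)) = l then c2 y else 0) ν (fun y => low (β y)) s) -
          Sm (Y := Y × (Fin m → Bool)) (p ^ e) (i0 :: L)
            (fun z => if cnt z.2 = cnt (top (β z.1)) ∧ z.2 ≠ top (β z.1) then c2 z.1 else 0)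
            (fun i z => ν i z.1) (fun z a => low (β z.1) a + (z.2 a).toNat) s := by
        have h1 : ∀ y, C (c2 y) * Wm (i0 :: L) ν y ^ p ^ e * ∏ a, xs n s a ^ β y a =
            el (cnt (top (β y))) * (C (c2 y) * Wm (i0 :: L) ν y ^ p ^ e *
              ∏ a, xs n s a ^ low (β y) a) -
            ∑ B : Fin m → Bool, C (if cnt B = cnt (top (β y)) ∧ B ≠ top (β y) then c2 y else 0) *
              Wm (i0 :: L) ν y ^ p ^ e * ∏ a, xs n s a ^ (low (β y) a + (B a).toNat) := by
          intro y
          rw [esymm_mul (fun a => xs n s a) (β y), mul_sub]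
          refine congrArg₂ (fun x z => x - z) ?_ ?_
          · simp only [el]
            ring
          · rw [Finset.mul_sum]
            refine Finset.sum_congr rfl fun B _ => ?_
            split_ifs
            · rfl
            · rw [C_0, zero_mul, zero_mul, mul_zero]
        have h2 : ∀ y, (∑ l ∈ range (m + 1), el l * (C (if cnt (top (β y)) = l then c2 y else 0) *
            Wm (i0 :: L) ν y ^ p ^ e * ∏ a, xs n s a ^ low (β y) a)) =
            el (cnt (top (β y))) * (C (c2 y) * Wm (i0 :: L) ν y ^ p ^ e *
              ∏ a, xs n s a ^ low (β y) a) := by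
          intro y
          rw [Finset.sum_eq_single (cnt (top (β y)))]
          · rw [if_pos rfl]
          · intro l _ hl
            rw [if_neg (Ne.symm hl), C_0, zero_mul, zero_mul, mul_zero]
          · intro h3
            exact absurd (Finset.mem_range.2 (Nat.lt_succ_of_le (cnt_le _))) h3
        unfold Sm
        simp only [Finset.mul_sum]
        rw [Finset.sum_comm, Fintype.sum_prod_type, ← Finset.sum_sub_distrib]
        refine Finset.sum_congr rfl fun y _ => ?_
        rw [h2 y]
        exact h1 y
      rw [hmain]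
      refine Subalgebra.sub_mem _ (Subalgebra.sum_mem _ fun l _ =>
        Subalgebra.mul_mem _ (hel l) ?_) ?_
      · refine ih Y π _ ν _ ⟨fun g y => ?_, h.2.1, hlow⟩ (fun y hy => ?_) s
        · simp only [hcnt, hc2]
        · have h3 : c2 y ≠ 0 := fun h4 => hy (by simp only [h4, ite_self])
          have h5 := hc2' y h3
          have h6 := sq_low_lt (β y) h5.1
          omega
      · refine ih (Y × (Fin m → Bool)) (fun g => (π g).prodCongr
          ((σ g).arrowCongr (Equiv.refl Bool))) _ _ _ ⟨fun g z => ?_, fun i g z a => ?_,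
          fun g z a => ?_⟩ (fun z hz => ?_) s
        · have h3 : cnt ((σ g).arrowCongr (Equiv.refl Bool) z.2) = cnt z.2 :=
            cnt_equi _ _ (σ g) fun a => by simp
          have h4 : ((σ g).arrowCongr (Equiv.refl Bool) z.2 = top (β (π g z.1))) ↔
              z.2 = top (β z.1) := by
            constructor
            · intro h5
              funext a
              have h6 := congrFun h5 (σ g a)
              rw [htop] at h6
              simpa using h6
            · intro h5
              funext a
              obtain ⟨b, rfl⟩ := (σ g).surjective a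
              rw [htop, ← h5]
              simp
          simp only [Equiv.prodCongr_apply, Prod.map_fst, Prod.map_snd, h3, hcnt, ne_eq, h4, hc2]
        · exact h.2.1 i g z.1 a
        · simp only [Equiv.prodCongr_apply, Prod.map_fst, Prod.map_snd, hlow]
          simp
        · have h3 : cnt z.2 = cnt (top (β z.1)) ∧ z.2 ≠ top (β z.1) := by
            by_contra h4
            exact hz (if_neg h4)
          have h5 : c2 z.1 ≠ 0 := by
            rw [if_pos h3] at hz
            exact hz
          have h6 := hc2' z.1 h5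
          have h7 := sq_lt (β z.1) z.2 h3.1 h3.2
          omega

theorem good [Infinite K] (p e n : ℕ) [Fact p.Prime] [CharP K p]
    (he : m * (m - 1) / 2 < p ^ e) (L : List (Fin n)) :
    ∀ (Y : Type) [Fintype Y] (π : G → Equiv.Perm Y) (c : Y → K)
      (ν : Fin n → Y → Fin m → ℕ) (β : Y → Fin m → ℕ), Equi σ π c ν β → ∀ s : Fin n → K,
      Sm (p ^ e) L c ν β s ∈ PK K (rhoPerm k σ) n := by
  induction L with
  | nil => exact fun Y _ π c ν β h s => good_nil σ (p ^ e) n Y π c ν β h s
  | cons i0 L ih =>
    intro Y _ π c ν β h s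
    refine good_all σ p e n he L i0 ih (1 + ∑ y, ∑ a, β y a ^ 2) Y π c ν β h (fun y _ => ?_) s
    have := Finset.single_le_sum (f := fun y => ∑ a, β y a ^ 2) (fun _ _ => Nat.zero_le _)
      (Finset.mem_univ y)
    omega

end perm

end Pool.Agent.H30.PR
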