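import Pool.Agent.H30.PR.Perm2

/-!
Permutation modules: the bound.
-/

set_option autoImplicit false
set_option linter.unusedSectionVars false

namespace Pool.Agent.H30.PR

open MvPolynomial Finset Pool.Agent.Q109.Polar

universe u v w

section perm

variable {k : Type u} {G : Type v} {K : Type w} [Field k] [Group G] {m : ℕ} [Field K] [Algebra k K]
  (σ : G →* Equiv.Perm (Fin m))

/-- the bound over an infinite extension field -/
theorem perm_ext [Infinite K] (p e n : ℕ) [Fact p.Prime] [CharP K p]
    (he : m * (m - 1) / 2 < p ^ e) (F : MvPolynomial (Fin n × Fin m) K)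
    (hF : ∀ g, AN (ext K (rhoPerm k σ)) n g F = F) : F ^ p ^ e ∈ PK K (rhoPerm k σ) n := by
  classical
  have hch : CharP (MvPolynomial (Fin n × Fin m) K) p :=
    charP_of_injective_algebraMap (MvPolynomial.C_injective _ _) p
  let ε : G → Equiv.Perm (Fin n × Fin m) := fun g => (Equiv.refl (Fin n)).prodCongr (σ g)
  have hren : ∀ g, rename (ε g) F = F := by
    intro g
    have h1 : AN (ext K (rhoPerm k σ)) n g = (rename (ε g) : MvPolynomial (Fin n × Fin m) K →ₐ[K] _) := by
      apply algHom_ext
      rintro ⟨i, a⟩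
      rw [AN_perm, rename_X]
      rfl
    have h2 := hF g
    rwa [h1] at h2
  have hcoeff : ∀ g (γ : Fin n × Fin m →₀ ℕ),
      coeff (Finsupp.equivCongrLeft (ε g) γ) F = coeff γ F := by
    intro g γ
    conv_lhs => rw [← hren g]
    rw [Finsupp.equivCongrLeft_apply, Finsupp.equivMapDomain_eq_mapDomain,
      coeff_rename_mapDomain _ (ε g).injective]
  let Y := {γ : Fin n × Fin m →₀ ℕ // γ ∈ F.support}
  let π : G → Equiv.Perm Y := fun g => (Finsupp.equivCongrLeft (ε g)).subtypeEquiv fun γ => by
    rw [mem_support_iff, mem_support_iff, hcoeff]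
  have h1 := good (k := k) σ p e n he (List.finRange n) Y π (fun y => coeff y.1 F ^ p ^ e)
    (fun i y a => y.1 (i, a)) (fun _ _ => 0) ⟨fun g y => by
      have h5 : (π g y).1 = Finsupp.equivCongrLeft (ε g) y.1 := rfl
      change coeff (π g y).1 F ^ p ^ e = coeff y.1 F ^ p ^ e
      rw [h5, hcoeff], fun i g y a => by
      have h5 : (π g y).1 = Finsupp.equivCongrLeft (ε g) y.1 := rfl
      change (π g y).1 (i, σ g a) = y.1 (i, a)
      rw [h5, Finsupp.equivCongrLeft_apply, Finsupp.equivMapDomain_apply]
      congr 1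
      simp [ε], fun _ _ _ => rfl⟩ 0
  have h2 : F ^ p ^ e = Sm (p ^ e) (List.finRange n) (fun y : Y => coeff y.1 F ^ p ^ e)
      (fun i y a => y.1 (i, a)) (fun _ _ => 0) 0 := by
    conv_lhs => rw [F.as_sum]
    rw [sum_pow_char_pow, Sm, ← Finset.sum_coe_sort F.support
      (fun d => (monomial d (coeff d F)) ^ p ^ e)]
    refine Finset.sum_congr (Finset.ext fun x => by simp) fun y _ => ?_
    have h3 : (monomial y.1 (coeff y.1 F)) = C (coeff y.1 F) * Wm (K := K) (List.finRange n)
        (fun i (y : Y) a => y.1 (i, a)) y := by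
      rw [monomial_eq, Finsupp.prod_fintype _ _ fun _ => pow_zero _, Fintype.prod_prod_type, Wm]
      congr 1
    rw [h3, mul_pow, ← map_pow]
    simp
  rw [h2]
  exact h1

/-- **permutation modules**: the exponent depends only on the degree -/
theorem perm_works (p : ℕ) [Fact p.Prime] [CharP k p] (n e : ℕ) (he : m * (m - 1) / 2 < p ^ e) :
    Works p (rhoPerm k σ) n e := by
  intro f hf
  have hK : CharP (AlgebraicClosure k) p :=
    charP_of_injective_algebraMap (algebraMap k (AlgebraicClosure k)).injective p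
  have h1 := perm_ext (k := k) (K := AlgebraicClosure k) σ p e n he
    (map (algebraMap k (AlgebraicClosure k)) f) (fun g => by
      change act (ext _ (rhoPerm k σ)) n g⁻¹ _ = _
      rw [hom_map (act (rhoPerm k σ) n g⁻¹) (act (ext _ (rhoPerm k σ)) n g⁻¹)
        (act_ext (rhoPerm k σ) n g⁻¹), hf])
  rw [← map_pow] at h1
  obtain ⟨L, hL⟩ := (Algebra.linearMap k (AlgebraicClosure k)).exists_leftInverse_of_injective
    (LinearMap.ker_eq_bot.2 (algebraMap k (AlgebraicClosure k)).injective)
  have h2 : L 1 = 1 := by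
    have := DFunLike.congr_fun hL 1
    simpa using this
  have h3 := PK_Lh (rhoPerm k σ) n _ h1 L
  rwa [Lh_map L h2] at h3

end perm

end Pool.Agent.H30.PR
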