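import Pool.Graph.R_pool_sql_team_seeded_2aa45f1a.Q109.Polar.Main

/-!
The uniform bound, with the exponent written out.
-/

set_option autoImplicit false

namespace Pool.Agent.H30.PR

open MvPolynomial Pool.Agent.Q109.Polar

universe u v

/-- the explicit exponent: `v_p |G| + ⌈log_p |G|⌉` -/
theorem uniform (p : ℕ) [Fact p.Prime] (k : Type u) [Field k] [CharP k p] (G : Type v)
    [Group G] [Finite G] (m : ℕ) (ρ : G →* Matrix (Fin m) (Fin m) k) (n : ℕ)
    (f : MvPolynomial (Fin n × Fin m) k) (hf : ∀ g, act ρ n g f = f) :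
    f ^ p ^ (padicValNat p (Nat.card G) + Nat.clog p (Nat.card G)) ∈ P ρ n := by
  have hp : p.Prime := Fact.out
  have hGpos : 0 < Nat.card G := Nat.card_pos
  obtain ⟨a, b, hb, hG⟩ := Nat.exists_eq_pow_mul_and_not_dvd hGpos.ne' p hp.ne_one
  have hbpos : b ≠ 0 := by
    rintro rfl
    rw [mul_zero] at hG
    omega
  have hv : padicValNat p (Nat.card G) = a := by
    rw [hG, padicValNat.mul (pow_ne_zero _ hp.ne_zero) hbpos, padicValNat.prime_pow,
      padicValNat.eq_zero_of_not_dvd hb, add_zero]
  rw [hv]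
  set e := Nat.clog p (Nat.card G) with he
  have hcard : Nat.card G ≤ p ^ e := Nat.le_pow_clog hp.one_lt _
  have hK : CharP (AlgebraicClosure k) p :=
    charP_of_injective_algebraMap (algebraMap k (AlgebraicClosure k)).injective p
  have h1 := bound_ext (K := AlgebraicClosure k) ρ p a b e hcard hG hb n
    (map (algebraMap k (AlgebraicClosure k)) f) (fun g => by
      change act (ext _ ρ) n g⁻¹ _ = _
      rw [hom_map (act ρ n g⁻¹) (act (ext _ ρ) n g⁻¹) (act_ext ρ n g⁻¹), hf])
  rw [← map_pow] at h1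
  obtain ⟨L, hL⟩ := (Algebra.linearMap k (AlgebraicClosure k)).exists_leftInverse_of_injective
    (LinearMap.ker_eq_bot.2 (algebraMap k (AlgebraicClosure k)).injective)
  have h2 : L 1 = 1 := by
    have := DFunLike.congr_fun hL 1
    simpa using this
  have h3 := PK_Lh ρ n _ h1 L
  rwa [Lh_map L h2] at h3

end Pool.Agent.H30.PR
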