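import Pool.Agent.H30.PR.Line
import Pool.Agent.H30.PR.Unif

/-!
The two-dimensional module with weights `1` and `-1` of the group of `r`-th roots of unity.
-/

set_option autoImplicit false

namespace Pool.Agent.H30.PR

open MvPolynomial Finset Pool.Agent.Q109.Polar

universe u v

/-- the group of `r`-th roots of unity acting on `k ^ 2` by `g ↦ diag (g, g⁻¹)` -/
noncomputable def rhoTwo (k : Type u) [Field k] (r : ℕ) :
    rootsOfUnity r k →* Matrix (Fin 2) (Fin 2) k where
  toFun g := Matrix.diagonal ![((g : kˣ) : k), (((g : kˣ)⁻¹ : kˣ) : k)]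
  map_one' := by
    rw [← Matrix.diagonal_one]
    congr 1
    funext i
    fin_cases i <;> simp
  map_mul' g h := by
    rw [Matrix.diagonal_mul_diagonal]
    congr 1
    funext i
    fin_cases i
    · simp
    · simp [mul_comm]

section scale

variable {k : Type u} [Field k] {σ : Type v} [Fintype σ]

theorem coeff_scale' (w : σ → k) (f : MvPolynomial σ k) (γ : σ →₀ ℕ) :
    coeff γ (aeval (fun i => C (w i) * X i : σ → MvPolynomial σ k) f) =
      (∏ i, w i ^ γ i) * coeff γ f := by
  classical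
  induction f using MvPolynomial.induction_on' with
  | monomial u a =>
    rw [aeval_monomial]
    have h1 : (u.prod fun i e => (C (w i) * X i : MvPolynomial σ k) ^ e) =
        C (∏ i, w i ^ u i) * monomial u 1 := by
      simp only [mul_pow]
      rw [Finsupp.prod_mul]
      congr 1
      · rw [Finsupp.prod_fintype _ _ fun _ => pow_zero _, map_prod]
        simp only [map_pow]
      · rw [monomial_eq, C_1, one_mul]
    rw [h1, MvPolynomial.algebraMap_eq, ← mul_assoc, ← C_mul, coeff_C_mul, coeff_monomial,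
      coeff_monomial]
    split_ifs with h
    · rw [h]
      ring
    · simp
  | add p q hp hq =>
    rw [map_add, coeff_add, coeff_add, hp, hq, mul_add]

end scale

section two

variable {k : Type u} [Field k] {r : ℕ}

theorem actV_two (g : rootsOfUnity r k) : actV (rhoTwo k r) g =
    aeval (fun i => C ((![((g : kˣ) : k), (((g : kˣ)⁻¹ : kˣ) : k)] : Fin 2 → k) i) * X i) := by
  unfold actV
  congr 1
  funext a
  rw [Finset.sum_eq_single a]
  · simp [rhoTwo]
  · intro b _ hb
    simp [rhoTwo, Matrix.diagonal_apply_ne _ (Ne.symm hb)]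
  · simp

theorem act_two (n : ℕ) (g : rootsOfUnity r k) : act (rhoTwo k r) n g =
    aeval (fun ia => C ((![((g : kˣ) : k), (((g : kˣ)⁻¹ : kˣ) : k)] : Fin 2 → k) ia.2) * X ia) := by
  unfold act
  congr 1
  funext ia
  obtain ⟨i, a⟩ := ia
  rw [Finset.sum_eq_single a]
  · simp [rhoTwo]
  · intro b _ hb
    simp [rhoTwo, Matrix.diagonal_apply_ne _ (Ne.symm hb)]
  · simp

/-- the exponents of the monomials in an invariant of `V` are congruent modulo `r` -/
theorem dvd_of_inv (hr : 0 < r) (ζ : k) (hζ : IsPrimitiveRoot ζ r) (f : MvPolynomial (Fin 2) k)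
    (hf : ∀ g, actV (rhoTwo k r) g f = f) (δ : Fin 2 →₀ ℕ) (hδ : δ ∈ f.support) :
    δ 0 ≡ δ 1 [MOD r] := by
  have hne : NeZero r := ⟨hr.ne'⟩
  have h1 := congrArg (coeff δ) (hf hζ.toRootsOfUnity)
  rw [actV_two, coeff_scale'] at h1
  have h2 : coeff δ f ≠ 0 := mem_support_iff.1 hδ
  have h3 : (∏ i, ((![((hζ.toRootsOfUnity : kˣ) : k), (((hζ.toRootsOfUnity : kˣ)⁻¹ : kˣ) : k)] :
      Fin 2 → k) i) ^ δ i) = 1 := by
    field_simp at h1
    exact h1
  rw [Fin.prod_univ_two] at h3
  simp only [Matrix.cons_val_zero, Matrix.cons_val_one, Units.val_inv_eq_inv_val,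
    IsPrimitiveRoot.val_toRootsOfUnity_coe] at h3
  have hζ0 : ζ ≠ 0 := hζ.ne_zero hr.ne'
  have h4 : ζ ^ ((δ 0 : ℤ) - δ 1) = 1 := by
    rw [zpow_sub₀ hζ0, zpow_natCast, zpow_natCast]
    rw [inv_pow] at h3
    rw [div_eq_mul_inv]
    exact h3
  rw [hζ.zpow_eq_one_iff_dvd] at h4
  exact (Nat.modEq_iff_dvd.2 (by rw [← neg_sub]; exact (dvd_neg).2 h4))

variable {T : Type u} [CommRing T] [Algebra k T] {n : ℕ}

/-- the first of two homomorphisms equal on `P_n` -/
noncomputable def phi (A B : T) (i j : Fin n) : MvPolynomial (Fin n × Fin 2) k →ₐ[k] T :=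
  aeval fun ia => if ia.2 = 0 then (if ia.1 = i then A else 0) else (if ia.1 = j then B else 0)

theorem phi_polar_zero (A B : T) (i j : Fin n) :
    map (phi (k := k) A B i j : MvPolynomial (Fin n × Fin 2) k →+* T) (polar n (X 0)) =
      X i * C A := by
  unfold polar
  rw [aeval_X, map_sum, Finset.sum_eq_single i]
  · rw [map_mul, map_X, map_C]
    simp [phi]
  · intro b _ hb
    rw [map_mul, map_X, map_C]
    simp [phi, hb]
  · simp

theorem phi_polar_one (A B : T) (i j : Fin n) :
    map (phi (k := k) A B i j : MvPolynomial (Fin n × Fin 2) k →+* T) (polar n (X 1)) =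
      X j * C B := by
  unfold polar
  rw [aeval_X, map_sum, Finset.sum_eq_single j]
  · rw [map_mul, map_X, map_C]
    simp [phi]
  · intro b _ hb
    rw [map_mul, map_X, map_C]
    simp [phi, hb]
  · simp

theorem phi_polar (A B : T) (i j : Fin n) (δ : Fin 2 →₀ ℕ) (c : k) :
    map (phi (k := k) A B i j : MvPolynomial (Fin n × Fin 2) k →+* T) (polar n (monomial δ c)) =
      C (algebraMap k T c) * ((X i * C A) ^ δ 0 * (X j * C B) ^ δ 1) := by
  have h1 : (monomial δ c : MvPolynomial (Fin 2) k) = C c * (X 0 ^ δ 0 * X 1 ^ δ 1) := by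
    rw [monomial_eq, Finsupp.prod_fintype _ _ fun _ => pow_zero _, Fin.prod_univ_two]
  rw [h1]
  simp only [map_mul, map_pow, phi_polar_zero, phi_polar_one]
  congr 1
  unfold polar
  rw [algHom_C, MvPolynomial.algebraMap_apply, map_C, MvPolynomial.algebraMap_eq]
  congr 1
  exact (phi (k := k) A B i j).commutes c

theorem P_le_eq (hr : 0 < r) (ζ : k) (hζ : IsPrimitiveRoot ζ r) (A B : T) (hA : A ^ r = 0)
    (hB : B ^ r = 0) (i j : Fin n) :
    P (rhoTwo k r) n ≤ AlgHom.equalizer (phi (k := k) A B i j) (phi B A j i) := by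
  refine Algebra.adjoin_le ?_
  rintro h ⟨f, hf, β, rfl⟩
  rw [SetLike.mem_coe, AlgHom.mem_equalizer]
  have key : map (phi (k := k) A B i j : MvPolynomial (Fin n × Fin 2) k →+* T) (polar n f) =
      map (phi (k := k) B A j i : MvPolynomial (Fin n × Fin 2) k →+* T) (polar n f) := by
    rw [f.as_sum, map_sum, map_sum, map_sum]
    refine Finset.sum_congr rfl fun δ hδ => ?_
    rw [phi_polar, phi_polar]
    congr 1
    have hmod := dvd_of_inv hr ζ hζ f hf δ hδ
    have hAr : ∀ N, r ≤ N → A ^ N = 0 := fun N hN => by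
      rw [← Nat.add_sub_cancel' hN, pow_add, hA, zero_mul]
    have hBr : ∀ N, r ≤ N → B ^ N = 0 := fun N hN => by
      rw [← Nat.add_sub_cancel' hN, pow_add, hB, zero_mul]
    rcases eq_or_ne (δ 0) (δ 1) with h0 | h0
    · rw [h0]
      exact mul_comm _ _
    · have h2 : r ≤ δ 0 ∨ r ≤ δ 1 := by
        by_contra h3
        push Not at h3
        exact h0 (Nat.ModEq.eq_of_lt_of_lt hmod h3.1 h3.2)
      simp only [mul_pow, ← map_pow]
      rcases h2 with h2 | h2
      · rw [hAr _ h2, hBr _ h2]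
        simp
      · rw [hAr _ h2, hBr _ h2]
        simp
  have h5 := congrArg (coeff β) key
  rw [coeff_map, coeff_map] at h5
  exact h5

end two

section lower

variable {k : Type u} [Field k] {r : ℕ}

/-- **the lower bound for the weights `1, -1`** -/
theorem lower_two (hr : 0 < r) (ζ : k) (hζ : IsPrimitiveRoot ζ r) (n q : ℕ) (hn : 2 ≤ n)
    (hq0 : 0 < q) (hq : q < r) :
    ∃ f : MvPolynomial (Fin n × Fin 2) k, (∀ g, act (rhoTwo k r) n g f = f) ∧
      f ^ q ∉ P (rhoTwo k r) n := by
  classical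
  let i : Fin n := ⟨0, by omega⟩
  let j : Fin n := ⟨1, by omega⟩
  have hij : i ≠ j := fun h => by
    have := congrArg Fin.val h
    simp [i, j] at this
  refine ⟨X (i, 0) * X (j, 1), fun g => ?_, fun h => ?_⟩
  · rw [act_two, map_mul, aeval_X, aeval_X]
    simp only [Matrix.cons_val_zero, Matrix.cons_val_one]
    have h1 : (C ((g : kˣ) : k) : MvPolynomial (Fin n × Fin 2) k) * C (((g : kˣ)⁻¹ : kˣ) : k) = 1 := by
      rw [← C_mul, Units.mul_inv, C_1]
    linear_combination (X (i, 0) * X (j, 1)) * h1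
  · let I : Ideal (MvPolynomial (Fin 2) k) := Ideal.span {X 0 ^ r, X 1 ^ r}
    let A : MvPolynomial (Fin 2) k ⧸ I := Ideal.Quotient.mk I (X 0)
    let B : MvPolynomial (Fin 2) k ⧸ I := Ideal.Quotient.mk I (X 1)
    have hA : A ^ r = 0 := by
      rw [← map_pow, Ideal.Quotient.eq_zero_iff_mem]
      exact Ideal.subset_span (Set.mem_insert _ _)
    have hB : B ^ r = 0 := by
      rw [← map_pow, Ideal.Quotient.eq_zero_iff_mem]
      exact Ideal.subset_span (Set.mem_insert_of_mem _ rfl)
    have h1 := P_le_eq hr ζ hζ A B hA hB i j h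
    rw [AlgHom.mem_equalizer, map_pow, map_pow, map_mul, map_mul] at h1
    simp only [phi, aeval_X, if_true, one_ne_zero, if_false, if_neg hij, zero_mul] at h1
    rw [zero_pow hq0.ne', ← map_mul, ← map_pow, Ideal.Quotient.eq_zero_iff_mem,
      Ideal.mem_span_pair] at h1
    obtain ⟨u, v, huv⟩ := h1
    have h2 := congrArg (coeff (Finsupp.single 0 q + Finsupp.single 1 q)) huv
    have h3 : ((X 0 * X 1) ^ q : MvPolynomial (Fin 2) k) =
        monomial (Finsupp.single 0 q + Finsupp.single 1 q) 1 := by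
      rw [mul_pow, X_pow_eq_monomial, X_pow_eq_monomial, monomial_mul, one_mul]
    rw [h3, coeff_add, coeff_monomial, if_pos rfl, X_pow_eq_monomial, X_pow_eq_monomial,
      coeff_mul_monomial', coeff_mul_monomial', if_neg, if_neg, add_zero] at h2
    · exact zero_ne_one h2
    · intro h4
      have := h4 1
      simp at this
      omega
    · intro h4
      have := h4 0
      simp at this
      omega

end lower

/-- **the exact exponent for the weights `1, -1`** -/
theorem exact_two (p : ℕ) [hp : Fact p.Prime] (k : Type u) [Field k] [CharP k p] (r : ℕ)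
    (hr : 0 < r) (ζ : k) (hζ : IsPrimitiveRoot ζ r) (n : ℕ) (hn : 2 ≤ n) (d : ℕ) :
    (∀ f : MvPolynomial (Fin n × Fin 2) k, (∀ g, act (rhoTwo k r) n g f = f) →
      f ^ p ^ d ∈ P (rhoTwo k r) n) ↔ Nat.clog p r ≤ d := by
  have hne : NeZero r := ⟨hr.ne'⟩
  have hcard : Nat.card (rootsOfUnity r k) = r := hζ.card_rootsOfUnity
  have hpr : ¬ p ∣ r := by
    rintro ⟨c, rfl⟩
    have h1 : (ζ ^ c) ^ p = 1 := by rw [← pow_mul, mul_comm]; exact hζ.pow_eq_one
    have h2 : (ζ ^ c - 1) ^ p = 0 := by rw [sub_pow_char, h1, one_pow, sub_self]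
    have h3 : ζ ^ c = 1 := sub_eq_zero.1 (pow_eq_zero_iff hp.out.ne_zero |>.1 h2)
    have h4 := hζ.dvd_of_pow_eq_one c h3
    have hc : 0 < c := Nat.pos_of_mul_pos_left hr
    have h5 := Nat.le_of_dvd hc h4
    have h6 := hp.out.two_le
    nlinarith
  constructor
  · intro h
    by_contra h1
    push Not at h1
    have h2 : p ^ d < r := (Nat.lt_clog_iff_pow_lt hp.out.one_lt).1 h1
    obtain ⟨f, hf, hf'⟩ := lower_two hr ζ hζ n (p ^ d) hn (pow_pos hp.out.pos d) h2
    exact hf' (h f hf)
  · intro h f hf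
    have h1 := uniform p k (rootsOfUnity r k) 2 (rhoTwo k r) n f hf
    rw [hcard, padicValNat.eq_zero_of_not_dvd hpr, zero_add] at h1
    obtain ⟨c, rfl⟩ := Nat.exists_eq_add_of_le h
    rw [pow_add, pow_mul]
    exact pow_mem h1 _

end Pool.Agent.H30.PR
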