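import Pool.Agent.H30.PR.Line

/-!
A `p`-group of order `Q = p ^ a` acting on `k ^ 2` by transvections.
-/

set_option autoImplicit false

namespace Pool.Agent.H30.PR

open MvPolynomial Finset Pool.Agent.Q109.Polar

universe u v

/-- the additive group of a field `E ⊆ k` acting on `k ^ 2`; the coordinate functions `x`, `y`
satisfy `c • x = x`, `c • y = y + c x` -/
noncomputable def rhoUni (E : Type v) (k : Type u) [Field E] [Field k] [Algebra E k] :
    Multiplicative E →* Matrix (Fin 2) (Fin 2) k where
  toFun c := !![1, 0; algebraMap E k c.toAdd, 1]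
  map_one' := by
    ext i j
    fin_cases i <;> fin_cases j <;> simp
  map_mul' c d := by
    ext i j
    fin_cases i <;> fin_cases j <;> simp [Matrix.mul_apply, Fin.sum_univ_two, add_comm]

section uni

variable {E : Type v} {k : Type u} [Field E] [Field k] [Algebra E k]

theorem actV_uni_zero (c : Multiplicative E) : actV (rhoUni E k) c (X 0) = X 0 := by
  simp [actV, rhoUni, Fin.sum_univ_two]

theorem actV_uni_one (c : Multiplicative E) : actV (rhoUni E k) c (X 1) =
    C (algebraMap E k c.toAdd) * X 0 + X 1 := by
  simp [actV, rhoUni, Fin.sum_univ_two]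

theorem act_uni_zero (n : ℕ) (c : Multiplicative E) (i : Fin n) :
    act (rhoUni E k) n c (X (i, 0)) = X (i, 0) := by
  simp [act, rhoUni, Fin.sum_univ_two]

theorem act_uni_one (n : ℕ) (c : Multiplicative E) (i : Fin n) :
    act (rhoUni E k) n c (X (i, 1)) = C (algebraMap E k c.toAdd) * X (i, 0) + X (i, 1) := by
  simp [act, rhoUni, Fin.sum_univ_two]

/-- `f (x, y)` as a polynomial in `y` over `k[x]` -/
noncomputable def two : MvPolynomial (Fin 2) k →ₐ[k] Polynomial (Polynomial k) :=
  aeval ![Polynomial.C Polynomial.X, Polynomial.X]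

/-- an invariant takes the same value at `(x, c x)` and at `(x, 0)` -/
theorem eval_two (f : MvPolynomial (Fin 2) k) (hf : ∀ c, actV (rhoUni E k) c f = f) (c : E) :
    (two f).eval (Polynomial.C (algebraMap E k c) * Polynomial.X) = (two f).eval 0 := by
  have h1 : ((Polynomial.evalRingHom (0 : Polynomial k)).comp
      (two (k := k) : MvPolynomial (Fin 2) k →+* _)).comp
      (actV (rhoUni E k) (Multiplicative.ofAdd c) : MvPolynomial (Fin 2) k →+* _) =
      (Polynomial.evalRingHom (Polynomial.C (algebraMap E k c) * Polynomial.X)).comp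
        (two (k := k) : MvPolynomial (Fin 2) k →+* _) := by
    apply ringHom_ext
    · intro r
      simp [two, actV, algHom_C]
    · intro i
      fin_cases i
      · simp only [Fin.zero_eta, Fin.isValue, RingHom.comp_apply, RingHom.coe_coe, actV_uni_zero]
        simp [two]
      · simp only [Fin.mk_one, Fin.isValue, RingHom.comp_apply, RingHom.coe_coe, actV_uni_one]
        simp [two]
  have h2 := DFunLike.congr_fun h1 f
  simp only [RingHom.comp_apply, RingHom.coe_coe, hf] at h2
  exact h2.symm

/-- `f (x, y) - f (x, 0)` is divisible by `y ^ Q - x ^ (Q - 1) y` -/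
theorem dvd_two [Fintype E] (f : MvPolynomial (Fin 2) k)
    (hf : ∀ c, actV (rhoUni E k) c f = f) :
    (Polynomial.X ^ Fintype.card E - Polynomial.C (Polynomial.X ^ (Fintype.card E - 1)) *
      Polynomial.X : Polynomial (Polynomial k)) ∣ two f - Polynomial.C ((two f).eval 0) := by
  classical
  set Q := Fintype.card E with hQ
  have hQ1 : 1 < Q := Fintype.one_lt_card
  set M : Polynomial (Polynomial k) := Polynomial.X ^ Q -
    Polynomial.C (Polynomial.X ^ (Q - 1)) * Polynomial.X with hM
  have hdeg : (Polynomial.C (Polynomial.X ^ (Q - 1)) * Polynomial.X :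
      Polynomial (Polynomial k)).degree < Q := by
    refine lt_of_le_of_lt (Polynomial.degree_C_mul_X_le _) ?_
    exact_mod_cast hQ1
  have hmon : M.Monic := Polynomial.monic_X_pow_sub (by simpa using hdeg)
  have hnat : M.natDegree = Q := by
    have : M.degree = Q := by
      rw [hM, Polynomial.degree_sub_eq_left_of_degree_lt, Polynomial.degree_X_pow]
      rwa [Polynomial.degree_X_pow]
    exact Polynomial.natDegree_eq_of_degree_eq_some this
  rw [← Polynomial.modByMonic_eq_zero_iff_dvd hmon]
  set g : Polynomial (Polynomial k) := two f - Polynomial.C ((two f).eval 0) with hg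
  have hroot : ∀ c : E, M.eval (Polynomial.C (algebraMap E k c) * Polynomial.X) = 0 := by
    intro c
    have hc : (algebraMap E k c) ^ Q = algebraMap E k c := by
      rw [← map_pow, FiniteField.pow_card]
    simp only [hM, Polynomial.eval_sub, Polynomial.eval_pow, Polynomial.eval_X,
      Polynomial.eval_mul, Polynomial.eval_C, mul_pow]
    rw [← Polynomial.C_pow, hc]
    have h3 : (Polynomial.X : Polynomial k) ^ Q = Polynomial.X ^ (Q - 1) * Polynomial.X := by
      rw [← pow_succ, Nat.sub_add_cancel hQ1.le]
    rw [h3]
    ring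
  refine Polynomial.eq_zero_of_natDegree_lt_card_of_eval_eq_zero _
    (f := fun c : E => Polynomial.C (algebraMap E k c) * Polynomial.X) ?_ ?_ ?_
  · intro c d hcd
    simp only at hcd
    have h4 := mul_right_cancel₀ Polynomial.X_ne_zero hcd
    exact (algebraMap E k).injective (Polynomial.C_injective h4)
  · intro c
    have h5 := Polynomial.modByMonic_add_div g M
    have h6 := congrArg (Polynomial.eval (Polynomial.C (algebraMap E k c) * Polynomial.X)) h5
    rw [Polynomial.eval_add, Polynomial.eval_mul, hroot, zero_mul, add_zero] at h6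
    rw [h6, hg, Polynomial.eval_sub, eval_two f hf, Polynomial.eval_C, sub_self]
  · refine lt_of_lt_of_le (Polynomial.natDegree_modByMonic_lt g hmon ?_) ?_
    · intro h7
      rw [h7, Polynomial.natDegree_one] at hnat
      omega
    · rw [hnat]

end uni

end Pool.Agent.H30.PR
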