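import Pool.Agent.H30.PR.Uni
import Pool.Agent.H30.PR.Two

/-!
The lower bound for the group of transvections, and inflation along a quotient map.
-/

set_option autoImplicit false

namespace Pool.Agent.H30.PR

open MvPolynomial Finset Pool.Agent.Q109.Polar

universe u v w

section uni

variable {E : Type v} {k : Type u} [Field E] [Field k] [Algebra E k]
variable {T : Type u} [CommRing T] [Algebra k T] {n : ℕ}

/-- substitution of `x = t_i A`, `y = t_j B` -/
noncomputable def psi (A B : T) (i j : Fin n) :
    Polynomial (Polynomial k) →+* MvPolynomial (Fin n) T :=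
  Polynomial.eval₂RingHom (Polynomial.eval₂RingHom (C.comp (algebraMap k T)) (X i * C A))
    (X j * C B)

theorem psi_two (A B : T) (i j : Fin n) (f : MvPolynomial (Fin 2) k) :
    map (phi (k := k) A B i j : MvPolynomial (Fin n × Fin 2) k →+* T) (polar n f) =
      psi A B i j (two f) := by
  have h1 : (map (phi (k := k) A B i j : MvPolynomial (Fin n × Fin 2) k →+* T)).comp
      ((polar n : MvPolynomial (Fin 2) k →ₐ[k] MvPolynomial (Fin n) (MvPolynomial (Fin n × Fin 2) k))
        : MvPolynomial (Fin 2) k →+* MvPolynomial (Fin n) (MvPolynomial (Fin n × Fin 2) k)) =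
      (psi (k := k) A B i j).comp (two (k := k) : MvPolynomial (Fin 2) k →+* _) := by
    apply ringHom_ext
    · intro r
      have h2 : map (phi (k := k) A B i j : MvPolynomial (Fin n × Fin 2) k →+* T)
          (polar n (C r : MvPolynomial (Fin 2) k)) = C (algebraMap k T r) := by
        unfold polar
        rw [algHom_C, MvPolynomial.algebraMap_apply, map_C, MvPolynomial.algebraMap_eq]
        congr 1
        exact (phi (k := k) A B i j).commutes r
      rw [RingHom.comp_apply, RingHom.comp_apply, RingHom.coe_coe, RingHom.coe_coe, h2]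
      unfold two
      rw [algHom_C]
      simp [psi, Polynomial.algebraMap_apply]
    · intro a
      fin_cases a
      · simp only [Fin.zero_eta, Fin.isValue, RingHom.comp_apply, RingHom.coe_coe, phi_polar_zero]
        simp [two, psi]
      · simp only [Fin.mk_one, Fin.isValue, RingHom.comp_apply, RingHom.coe_coe, phi_polar_one]
        simp [two, psi]
  exact DFunLike.congr_fun h1 f

theorem psi_const (A B B' : T) (i j : Fin n) (g : Polynomial k) :
    psi (k := k) A B i j (Polynomial.C g) = psi A B' i j (Polynomial.C g) := by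
  simp [psi]

theorem psi_inv [Fintype E] (A B : T) (hB : B ^ Fintype.card E = 0)
    (hAB : A ^ (Fintype.card E - 1) * B = 0) (i j : Fin n) (f : MvPolynomial (Fin 2) k)
    (hf : ∀ c, actV (rhoUni E k) c f = f) :
    psi A B i j (two f) = psi A B i j (Polynomial.C ((two f).eval 0)) := by
  obtain ⟨g, hg⟩ := dvd_two f hf
  rw [← sub_eq_zero, ← map_sub, hg, map_mul]
  have h1 : psi (k := k) A B i j (Polynomial.X ^ Fintype.card E -
      Polynomial.C (Polynomial.X ^ (Fintype.card E - 1)) * Polynomial.X) = 0 := by
    simp only [psi, map_sub, map_mul, map_pow, Polynomial.coe_eval₂RingHom, Polynomial.eval₂_X,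
      Polynomial.eval₂_C, mul_pow]
    rw [← map_pow, hB, ← map_pow]
    have h2 : (X i ^ (Fintype.card E - 1) * C (A ^ (Fintype.card E - 1)) * (X j * C B) :
        MvPolynomial (Fin n) T) = X i ^ (Fintype.card E - 1) * X j *
          C (A ^ (Fintype.card E - 1) * B) := by
      rw [C_mul]
      ring
    rw [h2, hAB]
    simp
  rw [h1, zero_mul]

theorem P_le_eq_uni [Fintype E] (A B : T) (hB : B ^ Fintype.card E = 0)
    (hAB : A ^ (Fintype.card E - 1) * B = 0) (i j : Fin n) :
    P (rhoUni E k) n ≤ AlgHom.equalizer (phi (k := k) A B i j) (phi A 0 i j) := by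
  refine Algebra.adjoin_le ?_
  rintro h ⟨f, hf, β, rfl⟩
  rw [SetLike.mem_coe, AlgHom.mem_equalizer]
  have key : map (phi (k := k) A B i j : MvPolynomial (Fin n × Fin 2) k →+* T) (polar n f) =
      map (phi (k := k) A 0 i j : MvPolynomial (Fin n × Fin 2) k →+* T) (polar n f) := by
    rw [psi_two, psi_two, psi_inv A B hB hAB i j f hf,
      psi_inv A 0 (zero_pow Fintype.card_ne_zero) (mul_zero _) i j f hf]
    exact psi_const A B 0 i j _
  have h5 := congrArg (coeff β) key
  rw [coeff_map, coeff_map] at h5
  exact h5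

/-- **the lower bound for the transvections** -/
theorem lower_uni [Fintype E] (n q : ℕ) (hn : 2 ≤ n) (hq0 : 0 < q)
    (hq : q + 1 < Fintype.card E) :
    ∃ f : MvPolynomial (Fin n × Fin 2) k, (∀ g, act (rhoUni E k) n g f = f) ∧
      f ^ q ∉ P (rhoUni E k) n := by
  classical
  let i : Fin n := ⟨0, by omega⟩
  let j : Fin n := ⟨1, by omega⟩
  have hij : i ≠ j := fun h => by
    have := congrArg Fin.val h
    simp [i, j] at this
  refine ⟨X (i, 0) * X (j, 1) - X (j, 0) * X (i, 1), fun g => ?_, fun h => ?_⟩
  · rw [map_sub, map_mul, map_mul, act_uni_zero, act_uni_zero, act_uni_one, act_uni_one]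
    ring
  · let I : Ideal (MvPolynomial (Fin 2) k) :=
      Ideal.span {X 1 ^ Fintype.card E, X 0 ^ (Fintype.card E - 1) * X 1}
    let A : MvPolynomial (Fin 2) k ⧸ I := Ideal.Quotient.mk I (X 0)
    let B : MvPolynomial (Fin 2) k ⧸ I := Ideal.Quotient.mk I (X 1)
    have hB : B ^ Fintype.card E = 0 := by
      rw [← map_pow, Ideal.Quotient.eq_zero_iff_mem]
      exact Ideal.subset_span (Set.mem_insert _ _)
    have hAB : A ^ (Fintype.card E - 1) * B = 0 := by
      rw [← map_pow, ← map_mul, Ideal.Quotient.eq_zero_iff_mem]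
      exact Ideal.subset_span (Set.mem_insert_of_mem _ rfl)
    have h1 := P_le_eq_uni (E := E) A B hB hAB i j h
    rw [AlgHom.mem_equalizer, map_pow, map_pow, map_sub, map_sub, map_mul, map_mul, map_mul,
      map_mul] at h1
    simp only [phi, aeval_X, if_true, one_ne_zero, if_false, if_neg hij, if_neg hij.symm,
      mul_zero, sub_zero, sub_self] at h1
    rw [zero_pow hq0.ne', ← map_mul, ← map_pow, Ideal.Quotient.eq_zero_iff_mem,
      Ideal.mem_span_pair] at h1
    obtain ⟨u, v, huv⟩ := h1
    have h2 := congrArg (coeff (Finsupp.single 0 q + Finsupp.single 1 q)) huv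
    have h3 : ((X 0 * X 1) ^ q : MvPolynomial (Fin 2) k) =
        monomial (Finsupp.single 0 q + Finsupp.single 1 q) 1 := by
      rw [mul_pow, X_pow_eq_monomial, X_pow_eq_monomial, monomial_mul, one_mul]
    have h4 : (X 0 ^ (Fintype.card E - 1) * X 1 : MvPolynomial (Fin 2) k) =
        monomial (Finsupp.single 0 (Fintype.card E - 1) + Finsupp.single 1 1) 1 := by
      rw [X_pow_eq_monomial, X, monomial_mul, one_mul]
    rw [h3, h4, coeff_add, coeff_monomial, if_pos rfl, X_pow_eq_monomial,
      coeff_mul_monomial', coeff_mul_monomial', if_neg, if_neg, add_zero] at h2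
    · exact zero_ne_one h2
    · intro h4
      have := h4 0
      simp at this
      omega
    · intro h4
      have := h4 1
      simp at this
      omega

end uni

section inflate

variable {k : Type u} [Field k] {G : Type v} [Group G] {H : Type w} [Group H] {m : ℕ}

/-- inflation along a surjection does not change `P_n` -/
theorem P_comp (ρ : H →* Matrix (Fin m) (Fin m) k) (π : G →* H) (hπ : Function.Surjective π)
    (n : ℕ) : P (ρ.comp π) n = P ρ n := by
  unfold P
  congr 1
  ext h
  constructor
  · rintro ⟨f, hf, β, rfl⟩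
    refine ⟨f, fun g => ?_, β, rfl⟩
    obtain ⟨g', rfl⟩ := hπ g
    exact hf g'
  · rintro ⟨f, hf, β, rfl⟩
    exact ⟨f, fun g => hf (π g), β, rfl⟩

end inflate

end Pool.Agent.H30.PR
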