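import Pool.Agent.H30.PR.Line

/-!
The upper bound on the line: `p ^ d`-th powers of invariants are in `P_n` if `r < p ^ (d + 1)`.
-/

set_option autoImplicit false

namespace Pool.Agent.H30.PR

open MvPolynomial Finset Pool.Agent.Q109.Polar
open scoped Pointwise

universe u v

section pack

variable {R : Type u} [CommMonoid R] {ι : Type v} (y : ι → R) (p : ℕ)

/-- the elements `y_i ^ (p ^ j)` -/
def Y (j : ℕ) : Set R := Set.range fun i => y i ^ p ^ j

theorem Y_pow (j s : ℕ) (x : R) (hx : x ∈ Y y p 0 ^ s) : x ^ p ^ j ∈ Y y p j ^ s := by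
  induction s generalizing x with
  | zero =>
    rw [pow_zero, Set.mem_one] at hx ⊢
    rw [hx, one_pow]
  | succ s ih =>
    rw [pow_succ, Set.mem_mul] at hx ⊢
    obtain ⟨a, ha, b, ⟨i, rfl⟩, rfl⟩ := hx
    refine ⟨a ^ p ^ j, ih a ha, y i ^ p ^ j, ⟨i, rfl⟩, ?_⟩
    simp only [pow_zero, pow_one, mul_pow]

/-- products of `r_j` elements of `Y j`, for `j < J`, where `r_j` is the `j`-th digit of `r` -/
def Blk (r J : ℕ) : Set R := ∏ j ∈ range J, Y y p j ^ (r / p ^ j % p)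

theorem pack (r : ℕ) (J : ℕ) : ∀ (N : ℕ) (x : R), x ∈ Y y p 0 ^ (N * (r % p ^ (J + 1))) →
    x ^ p ^ J ∈ Blk y p r (J + 1) ^ (p ^ J * N) := by
  induction J with
  | zero =>
    intro N x hx
    simp only [Blk, zero_add, pow_one, pow_zero, Finset.prod_range_one, Nat.div_one, one_mul]
      at hx ⊢
    rw [← pow_mul, mul_comm]
    exact hx
  | succ J ih =>
    intro N x hx
    have h1 : N * (r % p ^ (J + 1 + 1)) =
        r / p ^ (J + 1) % p * (p ^ (J + 1) * N) + N * (r % p ^ (J + 1)) := by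
      rw [Nat.mod_pow_succ]
      ring
    rw [h1, pow_add, Set.mem_mul] at hx
    obtain ⟨a, ha, b, hb, rfl⟩ := hx
    have h2 : b ^ p ∈ Y y p 0 ^ ((p * N) * (r % p ^ (J + 1))) := by
      have := Set.pow_mem_pow (n := p) hb
      rw [← pow_mul] at this
      convert this using 2
      ring
    have h3 := ih (p * N) (b ^ p) h2
    have h4 := Y_pow y p (J + 1) _ a ha
    have h5 : (a * b) ^ p ^ (J + 1) = (b ^ p) ^ p ^ J * a ^ p ^ (J + 1) := by
      rw [mul_pow, mul_comm, ← pow_mul b, ← pow_succ']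
    rw [h5]
    have h6 : Blk y p r (J + 1 + 1) ^ (p ^ (J + 1) * N) =
        Blk y p r (J + 1) ^ (p ^ J * (p * N)) *
          Y y p (J + 1) ^ (r / p ^ (J + 1) % p * (p ^ (J + 1) * N)) := by
      unfold Blk
      rw [Finset.prod_range_succ, mul_pow, ← pow_mul (Y y p (J + 1))]
      congr 2
      ring
    rw [h6]
    exact Set.mul_mem_mul h3 h4

end pack

section good

variable {k : Type u} [Field k] (p : ℕ) [hp : Fact p.Prime] (n : ℕ)

/-- the variables on `V ^ n`, `V` the line -/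
noncomputable def yy (k : Type u) [Field k] (n : ℕ) (i : Fin n) :
    MvPolynomial (Fin n × Fin 1) k := X (i, 0)

/-- monomials of degree `t` and with digit sums at most `c` -/
def Es (k : Type u) [Field k] (p n t c : ℕ) : Set (MvPolynomial (Fin n × Fin 1) k) :=
  {z | ∃ β : Fin n → ℕ, ∑ i, β i = t ∧ ∑ i, ds p (β i) ≤ c ∧ z = ∏ i, yy k n i ^ β i}

omit hp in
theorem Es_one : (1 : MvPolynomial (Fin n × Fin 1) k) ∈ Es k p n 0 0 :=
  ⟨0, by simp, by simp [ds], by simp⟩

theorem Es_mul {t c t' c' : ℕ} {x z : MvPolynomial (Fin n × Fin 1) k} (hx : x ∈ Es k p n t c)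
    (hz : z ∈ Es k p n t' c') : x * z ∈ Es k p n (t + t') (c + c') := by
  obtain ⟨β, h1, h2, rfl⟩ := hx
  obtain ⟨γ, h3, h4, rfl⟩ := hz
  refine ⟨β + γ, ?_, ?_, ?_⟩
  · simp only [Pi.add_apply, Finset.sum_add_distrib, h1, h3]
  · refine le_trans (Finset.sum_le_sum fun i _ => ds_add p (β i) (γ i)) ?_
    rw [Finset.sum_add_distrib]
    exact Nat.add_le_add h2 h4
  · simp only [Pi.add_apply, pow_add, Finset.prod_mul_distrib]

theorem Es_Y (j : ℕ) {x : MvPolynomial (Fin n × Fin 1) k} (hx : x ∈ Y (yy k n) p j) :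
    x ∈ Es k p n (p ^ j) 1 := by
  classical
  obtain ⟨i, rfl⟩ := hx
  refine ⟨Pi.single i (p ^ j), ?_, ?_, ?_⟩
  · simp
  · rw [Finset.sum_eq_single i]
    · rw [Pi.single_eq_same]
      exact ds_pow p j
    · intro b _ hb
      rw [Pi.single_eq_of_ne hb]
      simp [ds]
    · simp
  · rw [Finset.prod_eq_single i]
    · rw [Pi.single_eq_same]
    · intro b _ hb
      rw [Pi.single_eq_of_ne hb, pow_zero]
    · simp

theorem Es_Y_pow (j s : ℕ) (x : MvPolynomial (Fin n × Fin 1) k) (hx : x ∈ Y (yy k n) p j ^ s) :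
    x ∈ Es k p n (p ^ j * s) s := by
  induction s generalizing x with
  | zero =>
    rw [pow_zero, Set.mem_one] at hx
    rw [hx]
    exact Es_one p n
  | succ s ih =>
    rw [pow_succ, Set.mem_mul] at hx
    obtain ⟨a, ha, b, hb, rfl⟩ := hx
    exact Es_mul p n (ih a ha) (Es_Y p n j hb)

theorem Es_Blk (r J : ℕ) (x : MvPolynomial (Fin n × Fin 1) k) (hx : x ∈ Blk (yy k n) p r J) :
    x ∈ Es k p n (r % p ^ J) (∑ j ∈ range J, r / p ^ j % p) := by
  induction J generalizing x with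
  | zero =>
    simp only [Blk, Finset.prod_range_zero, Set.mem_one] at hx
    rw [hx, pow_zero, Nat.mod_one]
    exact Es_one p n
  | succ J ih =>
    unfold Blk at hx
    rw [Finset.prod_range_succ, Set.mem_mul] at hx
    obtain ⟨a, ha, b, hb, rfl⟩ := hx
    rw [Finset.sum_range_succ, Nat.mod_pow_succ]
    exact Es_mul p n (ih a ha) (Es_Y_pow p n J _ b hb)

variable {G : Type v} [Group G] (ρ : G →* Matrix (Fin 1) (Fin 1) k) [CharP k p]

include hp in
theorem Es_sub_P (r : ℕ) (hr : ∀ g, ρ g 0 0 ^ r = 1) (x : MvPolynomial (Fin n × Fin 1) k)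
    (hx : x ∈ Es k p n r (ds p r)) : x ∈ P ρ n := by
  obtain ⟨β, h1, h2, rfl⟩ := hx
  have h3 : ¬ p ∣ Nat.multinomial univ β := not_dvd_multinomial p univ β (by rw [h1]; exact h2)
  have h4 : ((Nat.multinomial univ β : ℕ) : k) ≠ 0 := by
    rwa [Ne, CharP.cast_eq_zero_iff k p]
  have h5 : (polar n ((X 0 : MvPolynomial (Fin 1) k) ^ r)).coeff (Finsupp.equivFunOnFinite.symm β)
      ∈ P ρ n := by
    refine Algebra.subset_adjoin ⟨X 0 ^ r, fun g => ?_, _, rfl⟩
    rw [actV_eq, map_pow, aeval_X, mul_pow, ← map_pow, hr, C_1, one_mul]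
  rw [coeff_polar, if_pos] at h5
  · have h6 := (P ρ n).smul_mem h5 ((Nat.multinomial univ β : ℕ) : k)⁻¹
    convert h6 using 1
    rw [smul_eq_C_mul, ← mul_assoc]
    have h7 : (C ((Nat.multinomial univ β : ℕ) : k)⁻¹ : MvPolynomial (Fin n × Fin 1) k) *
        ((Nat.multinomial univ ⇑(Finsupp.equivFunOnFinite.symm β) : ℕ) :
          MvPolynomial (Fin n × Fin 1) k) = 1 := by
      have h8 : (⇑(Finsupp.equivFunOnFinite.symm β) : Fin n → ℕ) = β := rfl
      rw [← C_eq_coe_nat, ← C_mul, h8, inv_mul_cancel₀ h4, C_1]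
    rw [h7, one_mul]
    rfl
  · rw [Finsupp.degree_eq_sum]
    simpa using h1

/-- a monomial whose degree is a multiple of `r` -/
theorem mono_pow_mem (r d N : ℕ) (hr : ∀ g, ρ g 0 0 ^ r = 1) (hd : r < p ^ (d + 1))
    (γ : Fin n × Fin 1 →₀ ℕ) (hγ : γ.degree = N * r) :
    (monomial γ (1 : k)) ^ p ^ d ∈ P ρ n := by
  have h1 : (monomial γ (1 : k)) ∈ Y (yy k n) p 0 ^ (N * (r % p ^ (d + 1))) := by
    rw [Nat.mod_eq_of_lt hd, ← hγ, monomial_eq, C_1, one_mul, Finsupp.degree_eq_sum,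
      Finsupp.prod_fintype _ _ fun _ => pow_zero _, ← Finset.prod_pow_eq_pow_sum]
    refine Set.finsetProd_mem_finsetProd _ _ _ fun ia _ => ?_
    refine Set.pow_mem_pow ⟨ia.1, ?_⟩
    have h2 : ia = (ia.1, 0) := Prod.ext rfl (Subsingleton.elim _ _)
    conv_rhs => rw [h2]
    simp only [pow_zero, pow_one, yy]
  have h2 := pack (yy k n) p r d N _ h1
  have h3 : Blk (yy k n) p r (d + 1) ⊆ (P ρ n : Set (MvPolynomial (Fin n × Fin 1) k)) := by
    intro x hx
    have h4 := Es_Blk p n r (d + 1) x hx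
    rw [Nat.mod_eq_of_lt hd] at h4
    obtain ⟨β, h5, h6, h7⟩ := h4
    exact Es_sub_P p n ρ r hr x ⟨β, h5, h6.trans (sum_digits_le p (d + 1) r), h7⟩
  have h4 : ∀ M : ℕ, ∀ x ∈ Blk (yy k n) p r (d + 1) ^ M, x ∈ P ρ n := by
    intro M
    induction M with
    | zero =>
      intro x hx
      rw [pow_zero, Set.mem_one] at hx
      rw [hx]
      exact one_mem _
    | succ M ih =>
      intro x hx
      rw [pow_succ, Set.mem_mul] at hx
      obtain ⟨a, ha, b, hb, rfl⟩ := hx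
      exact mul_mem (ih a ha) (h3 hb)
  exact h4 _ _ h2

/-- **the upper bound on the line** -/
theorem upper (r d : ℕ) (hr : ∀ j, (∀ g, ρ g 0 0 ^ j = 1) ↔ r ∣ j) (hd : r < p ^ (d + 1))
    (f : MvPolynomial (Fin n × Fin 1) k) (hf : ∀ g, act ρ n g f = f) : f ^ p ^ d ∈ P ρ n := by
  have hch : CharP (MvPolynomial (Fin n × Fin 1) k) p :=
    charP_of_injective_algebraMap (MvPolynomial.C_injective _ _) p
  rw [f.as_sum, sum_pow_char_pow]
  refine sum_mem fun γ hγ => ?_
  have h1 : r ∣ γ.degree := (hr _).1 fun g => by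
    have := hf g
    rw [act_eq, scale_inv_iff] at this
    exact this γ hγ
  obtain ⟨N, hN⟩ := h1
  have h2 : monomial γ (coeff γ f) = coeff γ f • monomial γ (1 : k) := by
    rw [smul_monomial, smul_eq_mul, mul_one]
  rw [h2, smul_pow]
  exact (P ρ n).smul_mem (mono_pow_mem p n ρ r d N ((hr r).2 dvd_rfl) hd γ
    (by rw [hN, mul_comm])) _

end good

end Pool.Agent.H30.PR
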